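import Mathlib

set_option autoImplicit false

/-!
# Triangle-free strongly regular graphs: integrality and the Krein bound
-/

namespace Pool.Agent.TFQ

open Matrix

theorem trace_idem {V : Type*} [Fintype V] [DecidableEq V] (F : Matrix V V ℝ) (h : F * F = F) :
    ∃ g : ℕ, F.trace = g := by
  have h1 : IsIdempotentElem (Matrix.toLin' F) := by
    unfold IsIdempotentElem
    rw [Module.End.mul_eq_comp, ← Matrix.toLin'_mul, h]
  have h2 := (LinearMap.IsIdempotentElem.isProj_range (Matrix.toLin' F) h1).trace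
  rw [Matrix.trace_toLin'_eq] at h2
  exact ⟨_, h2⟩

section

variable {V : Type*} [Fintype V] [DecidableEq V] (Γ : SimpleGraph V) [DecidableRel Γ.Adj]
  {n k μ : ℕ}

/-- the matrix of ones -/
noncomputable def JJ (V : Type*) : Matrix V V ℝ := Matrix.of fun _ _ => 1

/-- the projector of the eigenvalue `-t`, times `θ + t` -/
noncomputable def FF (θ c : ℝ) : Matrix V V ℝ :=
  θ • (1 : Matrix V V ℝ) - Γ.adjMatrix ℝ + c • JJ V

omit [DecidableEq V] in
theorem J_mul_J : JJ V * JJ V = (Fintype.card V : ℝ) • JJ V := by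
  ext a b
  simp [JJ, Matrix.mul_apply]

variable {Γ}

omit [DecidableEq V] in
theorem A_mul_J (h : Γ.IsSRGWith n k 0 μ) : Γ.adjMatrix ℝ * JJ V = (k : ℝ) • JJ V := by
  ext a b
  rw [SimpleGraph.adjMatrix_mul_apply]
  simp [JJ, h.regular.degree_eq a]

omit [DecidableEq V] in
theorem J_mul_A (h : Γ.IsSRGWith n k 0 μ) : JJ V * Γ.adjMatrix ℝ = (k : ℝ) • JJ V := by
  ext a b
  rw [SimpleGraph.mul_adjMatrix_apply]
  simp [JJ, h.regular.degree_eq b]

theorem A_sq (h : Γ.IsSRGWith n k 0 μ) : Γ.adjMatrix ℝ * Γ.adjMatrix ℝ =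
    ((k : ℝ) - μ) • (1 : Matrix V V ℝ) - (μ : ℝ) • Γ.adjMatrix ℝ + (μ : ℝ) • JJ V := by
  have h1 := h.matrix_eq (α := ℝ)
  rw [sq, ← Nat.cast_smul_eq_nsmul ℝ k, ← Nat.cast_smul_eq_nsmul ℝ 0,
    ← Nat.cast_smul_eq_nsmul ℝ μ] at h1
  rw [h1]
  ext a b
  simp only [Matrix.add_apply, Matrix.sub_apply, Matrix.smul_apply, JJ, Matrix.of_apply,
    SimpleGraph.adjMatrix_apply, SimpleGraph.compl_adj, smul_eq_mul, Matrix.one_apply]
  by_cases hab : a = b
  · subst hab
    simp
  · by_cases hadj : Γ.Adj a b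
    · simp [hab, hadj]
    · simp [hab, hadj]

theorem FF_sq (h : Γ.IsSRGWith n k 0 μ) {θ t c : ℝ} (h1 : t - θ = μ) (h2 : θ * t = k - μ)
    (h3 : c * (k + t) = μ) (h4 : c * n = k - θ) :
    FF Γ θ c * FF Γ θ c = (θ + t) • FF Γ θ c := by
  unfold FF
  have hn : (Fintype.card V : ℝ) = n := by rw [h.card]
  have e1 : (θ • (1 : Matrix V V ℝ) - Γ.adjMatrix ℝ + c • JJ V) *
      (θ • (1 : Matrix V V ℝ) - Γ.adjMatrix ℝ + c • JJ V) =
      (θ * θ) • (1 : Matrix V V ℝ) - (2 * θ) • Γ.adjMatrix ℝ + (2 * θ * c) • JJ V +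
        Γ.adjMatrix ℝ * Γ.adjMatrix ℝ - c • (Γ.adjMatrix ℝ * JJ V) - c • (JJ V * Γ.adjMatrix ℝ) +
        (c * c) • (JJ V * JJ V) := by
    simp only [add_mul, sub_mul, mul_add, mul_sub, smul_mul_assoc, mul_smul_comm, one_mul,
      mul_one]
    module
  rw [e1, A_sq h, A_mul_J h, J_mul_A h, J_mul_J, hn]
  have e2 : c * c * n = c * (k - θ) := by rw [mul_assoc, h4]
  ext a b
  simp only [Matrix.add_apply, Matrix.sub_apply, Matrix.smul_apply, smul_eq_mul]
  have hk : (k : ℝ) - μ = θ * t := h2.symm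
  rw [hk, ← h1] 
  have e3 : c * (k + t) = t - θ := by rw [h3, h1]
  linear_combination (JJ V a b) * e2 - (JJ V a b) * e3

omit [Fintype V] in
theorem FF_symm (θ c : ℝ) : (FF Γ θ c).transpose = FF Γ θ c := by
  unfold FF
  rw [Matrix.transpose_add, Matrix.transpose_sub, Matrix.transpose_smul, Matrix.transpose_smul,
    Matrix.transpose_one, SimpleGraph.transpose_adjMatrix]
  congr 1

theorem FF_trace (θ c : ℝ) : (FF Γ θ c).trace = (Fintype.card V : ℝ) * (θ + c) := by
  unfold FF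
  rw [Matrix.trace_add, Matrix.trace_sub, Matrix.trace_smul, Matrix.trace_smul, Matrix.trace_one,
    SimpleGraph.trace_adjMatrix]
  simp [JJ, Matrix.trace]
  ring

omit [DecidableEq V] in
/-- the square of a symmetric idempotent is positive -/
theorem quad_nonneg (F : Matrix V V ℝ) (hs : F.transpose = F) (h : F * F = F) (v : V → ℝ) :
    0 ≤ ∑ a, ∑ b, v a * v b * F a b := by
  have h1 : ∀ a b, F a b = ∑ e, F e a * F e b := by
    intro a b
    have := congrFun (congrFun h a) b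
    rw [Matrix.mul_apply] at this
    rw [← this]
    refine Finset.sum_congr rfl fun e _ => ?_
    have h2 := congrFun (congrFun hs a) e
    rw [Matrix.transpose_apply] at h2
    rw [h2]
  have h2 : ∑ a, ∑ b, v a * v b * F a b = ∑ e, (∑ a, v a * F e a) ^ 2 := by
    have h3 : ∀ a b, v a * v b * F a b = ∑ e, (v a * F e a) * (v b * F e b) := by
      intro a b
      rw [h1 a b, Finset.mul_sum]
      refine Finset.sum_congr rfl fun e _ => ?_
      ring
    simp_rw [h3]
    rw [Finset.sum_congr rfl fun a _ => Finset.sum_comm, Finset.sum_comm]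
    refine Finset.sum_congr rfl fun e _ => ?_
    rw [sq, Finset.sum_mul_sum]
  rw [h2]
  positivity

omit [DecidableEq V] in
/-- the Schur square of a symmetric idempotent is positive -/
theorem schur_nonneg (F : Matrix V V ℝ) (hs : F.transpose = F) (h : F * F = F) (v : V → ℝ) :
    0 ≤ ∑ a, ∑ b, v a * v b * F a b ^ 2 := by
  have h1 : ∀ a b, F a b = ∑ e, F e a * F e b := by
    intro a b
    have := congrFun (congrFun h a) b
    rw [Matrix.mul_apply] at this
    rw [← this]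
    refine Finset.sum_congr rfl fun e _ => ?_
    have h2 := congrFun (congrFun hs a) e
    rw [Matrix.transpose_apply] at h2
    rw [h2]
  have h2 : ∑ a, ∑ b, v a * v b * F a b ^ 2 =
      ∑ e, ∑ a, ∑ b, (v a * F e a) * (v b * F e b) * F a b := by
    have h3 : ∀ a b, v a * v b * F a b ^ 2 = ∑ e, (v a * F e a) * (v b * F e b) * F a b := by
      intro a b
      have h4 : v a * v b * F a b ^ 2 = v a * v b * F a b * ∑ e, F e a * F e b := by
        rw [← h1 a b]; ring
      rw [h4, Finset.mul_sum]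
      refine Finset.sum_congr rfl fun e _ => ?_
      ring
    simp_rw [h3]
    rw [Finset.sum_congr rfl fun a _ => Finset.sum_comm, Finset.sum_comm]
  rw [h2]
  exact Finset.sum_nonneg fun e _ => quad_nonneg F hs h fun a => v a * F e a

/-- the Krein bound `t ≤ θ (θ + 2)` -/
theorem krein (h : Γ.IsSRGWith n k 0 μ) {θ t c : ℝ} (h1 : t - θ = μ) (h2 : θ * t = k - μ)
    (h3 : c * (k + t) = μ) (h4 : c * n = k - θ) (hθ : 0 < θ) (ht : 1 < t) (hc : 0 < c)
    (hn : 0 < n) : t ≤ θ * (θ + 2) := by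
  obtain ⟨F, hF⟩ : ∃ F : Matrix V V ℝ, F = (θ + t)⁻¹ • FF Γ θ c := ⟨_, rfl⟩
  have hs : 0 < θ + t := by linarith
  have hFs : F.transpose = F := by rw [hF, Matrix.transpose_smul, FF_symm]
  have hFF : F * F = F := by
    rw [hF, Matrix.smul_mul, Matrix.mul_smul, FF_sq h h1 h2 h3 h4, smul_smul, smul_smul,
      mul_assoc, inv_mul_cancel₀ hs.ne', mul_one]
  -- a vertex
  have hcard : 0 < Fintype.card V := by rw [h.card]; exact hn
  obtain ⟨x⟩ := Fintype.card_pos_iff.1 hcard
  -- the entries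
  have hent : ∀ a b, (θ + t) ^ 2 * F a b ^ 2 = (if a = b then (θ + c) ^ 2 - c ^ 2 else 0) +
      ((1 - c) ^ 2 - c ^ 2) * Γ.adjMatrix ℝ a b + c ^ 2 := by
    intro a b
    have e1 : (θ + t) ^ 2 * F a b ^ 2 = (FF Γ θ c a b) ^ 2 := by
      rw [hF, Matrix.smul_apply, smul_eq_mul]
      field_simp
    rw [e1]
    simp only [FF, Matrix.add_apply, Matrix.sub_apply, Matrix.smul_apply, JJ, Matrix.of_apply,
      SimpleGraph.adjMatrix_apply, smul_eq_mul, Matrix.one_apply]
    by_cases hab : a = b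
    · subst hab
      simp
    · by_cases hadj : Γ.Adj a b
      · simp [hab, hadj]
        ring
      · simp [hab, hadj]
  -- the column `v`
  have hAF : Γ.adjMatrix ℝ * F = (-t) • F := by
    rw [hF, Matrix.mul_smul]
    have : Γ.adjMatrix ℝ * FF Γ θ c = (-t) • FF Γ θ c := by
      unfold FF
      rw [Matrix.mul_add, Matrix.mul_sub, Matrix.mul_smul, Matrix.mul_smul, Matrix.mul_one,
        A_sq h, A_mul_J h]
      have hk : (k : ℝ) - μ = θ * t := h2.symm
      rw [hk]
      ext a b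
      simp only [Matrix.add_apply, Matrix.sub_apply, Matrix.smul_apply, smul_eq_mul]
      linear_combination (Γ.adjMatrix ℝ a b) * (-h1) + (JJ V a b) * h3
    rw [this, smul_smul, smul_smul, mul_comm]
  have hJF : JJ V * F = 0 := by
    rw [hF, Matrix.mul_smul]
    have hnV : (Fintype.card V : ℝ) = n := by rw [h.card]
    have : JJ V * FF Γ θ c = 0 := by
      unfold FF
      rw [Matrix.mul_add, Matrix.mul_sub, Matrix.mul_smul, Matrix.mul_smul, Matrix.mul_one,
        J_mul_A h, J_mul_J, hnV]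
      ext a b
      simp only [Matrix.add_apply, Matrix.sub_apply, Matrix.smul_apply, smul_eq_mul,
        Matrix.zero_apply]
      linear_combination (JJ V a b) * h4
    rw [this, smul_zero]
  have hv1 : ∀ a, ∑ b, Γ.adjMatrix ℝ a b * F b x = -t * F a x := by
    intro a
    have := congrFun (congrFun hAF a) x
    rwa [Matrix.mul_apply, Matrix.smul_apply, smul_eq_mul] at this
  have hv2 : ∑ b, F b x = 0 := by
    have := congrFun (congrFun hJF x) x
    rw [Matrix.mul_apply, Matrix.zero_apply] at this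
    simpa [JJ] using this
  have hv3 : ∑ a, F a x * F a x = F x x := by
    have := congrFun (congrFun hFF x) x
    rw [Matrix.mul_apply] at this
    rw [← this]
    refine Finset.sum_congr rfl fun a _ => ?_
    have h5 := congrFun (congrFun hFs x) a
    rw [Matrix.transpose_apply] at h5
    rw [h5]
  have hFx : F x x = (θ + c) / (θ + t) := by
    rw [hF, Matrix.smul_apply, smul_eq_mul]
    simp [FF, JJ, Matrix.add_apply, Matrix.sub_apply, SimpleGraph.adjMatrix_apply]
    rw [div_eq_inv_mul]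
  have hpos := schur_nonneg F hFs hFF fun a => F a x
  have hval : (θ + t) ^ 2 * ∑ a, ∑ b, F a x * F b x * F a b ^ 2 =
      (((θ + c) ^ 2 - c ^ 2) + ((1 - c) ^ 2 - c ^ 2) * (-t)) * F x x := by
    rw [← hv3, Finset.mul_sum, Finset.mul_sum]
    refine Finset.sum_congr rfl fun a _ => ?_
    have e1 : (θ + t) ^ 2 * ∑ b, F a x * F b x * F a b ^ 2 =
        F a x * ∑ b, (F b x * ((θ + t) ^ 2 * F a b ^ 2)) := by
      rw [Finset.mul_sum, Finset.mul_sum]
      refine Finset.sum_congr rfl fun b _ => ?_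
      ring
    rw [e1]
    have e2 : ∑ b, (F b x * ((θ + t) ^ 2 * F a b ^ 2)) =
        ((θ + c) ^ 2 - c ^ 2) * F a x + ((1 - c) ^ 2 - c ^ 2) * (-t * F a x) + c ^ 2 * 0 := by
      rw [← hv1 a, ← hv2]
      have e3 : ((θ + c) ^ 2 - c ^ 2) * F a x =
          ∑ b, (if a = b then ((θ + c) ^ 2 - c ^ 2) * F b x else 0) := by
        rw [Finset.sum_ite_eq Finset.univ a fun b => ((θ + c) ^ 2 - c ^ 2) * F b x]
        simp
      rw [e3, Finset.mul_sum, Finset.mul_sum, ← Finset.sum_add_distrib, ← Finset.sum_add_distrib]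
      refine Finset.sum_congr rfl fun b _ => ?_
      rw [hent]
      split_ifs <;> ring
    rw [e2]
    ring
  have h6 : 0 ≤ (((θ + c) ^ 2 - c ^ 2) + ((1 - c) ^ 2 - c ^ 2) * (-t)) * F x x := by
    rw [← hval]; positivity
  have h7 : 0 < F x x := by rw [hFx]; positivity
  have h8 : 0 ≤ ((θ + c) ^ 2 - c ^ 2) + ((1 - c) ^ 2 - c ^ 2) * (-t) := by
    by_contra hneg
    have := mul_neg_of_neg_of_pos (not_le.1 hneg) h7
    linarith
  have h9 : 0 ≤ θ ^ 2 - t + 2 * c * (θ + t) := by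
    refine le_of_le_of_eq h8 ?_
    ring
  -- multiply by `k + t`
  have hk : (k : ℝ) = t - θ + θ * t := by linarith
  have hkt : 0 < (k : ℝ) + t := by
    rw [hk]
    have : θ * 1 < θ * t := mul_lt_mul_of_pos_left ht hθ
    linarith
  have h10 : 0 ≤ (θ ^ 2 - t) * (k + t) + 2 * (t - θ) * (θ + t) := by
    have h11 : 0 ≤ (θ ^ 2 - t + 2 * c * (θ + t)) * (k + t) := mul_nonneg h9 hkt.le
    have h12 : c * (k + t) = t - θ := by rw [h3, h1]
    have h13 : (θ ^ 2 - t + 2 * c * (θ + t)) * (k + t) =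
        (θ ^ 2 - t) * (k + t) + 2 * (t - θ) * (θ + t) := by
      linear_combination 2 * (θ + t) * h12
    rwa [h13] at h11
  have h13 : 0 ≤ θ * ((t - 1) * (θ * (θ + 2) - t)) := by
    rw [hk] at h10
    refine le_of_le_of_eq h10 ?_
    ring
  have h14 : 0 ≤ (t - 1) * (θ * (θ + 2) - t) := by
    by_contra hneg
    have := mul_neg_of_pos_of_neg hθ (not_le.1 hneg)
    linarith
  have h15 : 0 ≤ θ * (θ + 2) - t := by
    by_contra hneg
    have := mul_neg_of_pos_of_neg (by linarith : 0 < t - 1) (not_le.1 hneg)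
    linarith
  linarith

/-- the parameters of a triangle-free strongly regular graph -/
theorem params (h : Γ.IsSRGWith n k 0 μ) (h1 : 1 ≤ μ) (h2 : μ < k) (hn : 0 < n) :
    (n = 5 ∧ k = 2 ∧ μ = 1) ∨ ∃ θ : ℕ, 1 ≤ θ ∧ k = μ + θ * (θ + μ) ∧
      (n : ℤ) * μ = ((θ + 1) * μ + θ * (θ - 1)) * ((θ + 2) * μ + θ * (θ + 1)) ∧
      μ ≤ θ * (θ + 1) ∧ 2 * θ + μ ∣ (n - 1) * θ + k := by
  -- counting
  have hpe := SimpleGraph.IsSRGWith.param_eq Γ h hn
  have hk2 : 2 ≤ k := by omega
  have hnk : k + 1 < n := by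
    by_contra hcon
    have h3 : n - k - 1 = 0 := by omega
    rw [h3, zero_mul, Nat.sub_zero] at hpe
    rcases Nat.mul_eq_zero.1 hpe with h4 | h4 <;> omega
  have hcount : (k : ℝ) * (k - 1) = (n - k - 1) * μ := by
    have h3 : ((k * (k - 0 - 1) : ℕ) : ℝ) = (((n - k - 1) * μ : ℕ) : ℝ) := by rw [hpe]
    rw [Nat.sub_zero, Nat.cast_mul, Nat.cast_mul, Nat.cast_sub (by omega : 1 ≤ k),
      Nat.cast_sub (by omega : 1 ≤ n - k), Nat.cast_sub (by omega : k ≤ n)] at h3
    simpa using h3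
  have hμr : (1 : ℝ) ≤ μ := by exact_mod_cast h1
  have hkμ : (μ : ℝ) < k := by exact_mod_cast h2
  have hnr : (0 : ℝ) < n := by exact_mod_cast hn
  -- the eigenvalues
  obtain ⟨s, hs⟩ : ∃ s : ℝ, s = Real.sqrt ((μ : ℝ) ^ 2 + 4 * (k - μ)) := ⟨_, rfl⟩
  have hD : 0 ≤ (μ : ℝ) ^ 2 + 4 * (k - μ) := by nlinarith
  have hss : s ^ 2 = (μ : ℝ) ^ 2 + 4 * (k - μ) := by rw [hs, Real.sq_sqrt hD]
  have hs0 : 0 ≤ s := by rw [hs]; exact Real.sqrt_nonneg _
  have hsμ : (μ : ℝ) < s := by nlinarith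
  obtain ⟨θ, hθ⟩ : ∃ θ : ℝ, θ = (s - μ) / 2 := ⟨_, rfl⟩
  obtain ⟨t, ht⟩ : ∃ t : ℝ, t = (s + μ) / 2 := ⟨_, rfl⟩
  have e1 : t - θ = μ := by rw [ht, hθ]; ring
  have e2 : θ * t = k - μ := by rw [ht, hθ]; linear_combination hss / 4
  have hst : θ + t = s := by rw [ht, hθ]; ring
  have hθ0 : 0 < θ := by rw [hθ]; linarith
  have ht1 : 1 < t := by rw [ht]; linarith
  have hkt : 0 < (k : ℝ) + t := by linarith
  obtain ⟨c, hc⟩ : ∃ c : ℝ, c = μ / (k + t) := ⟨_, rfl⟩
  have e3 : c * (k + t) = μ := by rw [hc]; field_simp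
  have hc0 : 0 < c := by rw [hc]; positivity
  have hprod : ((k : ℝ) - θ) * (k + t) = n * μ := by
    have : ((k : ℝ) - θ) * (k + t) = k ^ 2 + k * (t - θ) - θ * t := by ring
    rw [this, e1, e2]
    linear_combination hcount
  have e4 : c * n = k - θ := by
    have h5 : (c * n) * (k + t) = (k - θ) * (k + t) := by
      rw [hprod]; linear_combination n * e3
    exact mul_right_cancel₀ hkt.ne' h5
  -- multiplicity
  obtain ⟨g, hg⟩ : ∃ g : ℕ, (n : ℝ) * (θ + c) = g * s := by
    obtain ⟨g, hg⟩ := trace_idem ((θ + t)⁻¹ • FF Γ θ c) (by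
      rw [Matrix.smul_mul, Matrix.mul_smul, FF_sq h e1 e2 e3 e4, smul_smul, smul_smul,
        mul_assoc, inv_mul_cancel₀ (by rw [hst]; linarith), mul_one])
    refine ⟨g, ?_⟩
    rw [Matrix.trace_smul, FF_trace, h.card, smul_eq_mul, hst] at hg
    rw [← hg]
    have : s ≠ 0 := by linarith
    field_simp
  have hg' : ((n : ℝ) - 1) * θ + k = g * s := by
    rw [← hg]; linear_combination -e4
  have hkr := krein h e1 e2 e3 e4 hθ0 ht1 hc0 hn
  by_cases hint : ∃ d : ℕ, d ^ 2 = μ ^ 2 + 4 * (k - μ)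
  · right
    obtain ⟨d, hd⟩ := hint
    have hds : (d : ℝ) = s := by
      have h5 : (d : ℝ) ^ 2 = s ^ 2 := by
        rw [hss]
        have : ((d ^ 2 : ℕ) : ℝ) = ((μ ^ 2 + 4 * (k - μ) : ℕ) : ℝ) := by rw [hd]
        push_cast [Nat.cast_sub h2.le] at this
        exact this
      nlinarith [Nat.cast_nonneg (α := ℝ) d]
    have hdμ : μ < d := by
      have : (μ : ℝ) < d := by rw [hds]; exact hsμ
      exact_mod_cast this
    have hpar : ∃ u : ℕ, d = μ + 2 * u := by
      have h5 : (d * d) % 2 = (μ * μ) % 2 := by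
        have : d * d = μ * μ + 4 * (k - μ) := by rw [← sq, ← sq]; exact hd
        omega
      rcases Nat.even_or_odd' d with ⟨a, ha | ha⟩ <;> rcases Nat.even_or_odd' μ with ⟨b, hb | hb⟩
      · exact ⟨a - b, by omega⟩
      · exfalso
        subst ha hb
        have h6 : (2 * a * (2 * a)) % 2 = 0 := by
          rw [show 2 * a * (2 * a) = 2 * (a * (2 * a)) by ring]; omega
        have h7 : ((2 * b + 1) * (2 * b + 1)) % 2 = 1 := by
          rw [show (2 * b + 1) * (2 * b + 1) = 2 * (b * (2 * b + 1) + b) + 1 by ring]; omega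
        omega
      · exfalso
        subst ha hb
        have h6 : (2 * b * (2 * b)) % 2 = 0 := by
          rw [show 2 * b * (2 * b) = 2 * (b * (2 * b)) by ring]; omega
        have h7 : ((2 * a + 1) * (2 * a + 1)) % 2 = 1 := by
          rw [show (2 * a + 1) * (2 * a + 1) = 2 * (a * (2 * a + 1) + a) + 1 by ring]; omega
        omega
      · exact ⟨a - b, by omega⟩
    obtain ⟨u, hu⟩ := hpar
    have hθu : θ = u := by
      rw [hθ, ← hds, hu]; push_cast; ring
    have htu : t = μ + u := by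
      rw [ht, ← hds, hu]; push_cast; ring
    have hsu : s = μ + 2 * u := by rw [← hds, hu]; push_cast; ring
    refine ⟨u, by omega, ?_, ?_, ?_, ?_⟩
    · have h5 : (k : ℝ) = ((μ + u * (u + μ) : ℕ) : ℝ) := by
        push_cast
        rw [hθu, htu] at e2
        linear_combination -e2
      exact_mod_cast h5
    · have h5 : ((n : ℤ) : ℝ) * ((μ : ℤ) : ℝ) = ((((u : ℤ) + 1) * μ + u * (u - 1)) *
          ((u + 2) * μ + u * (u + 1)) : ℤ) := by
        push_cast
        rw [← hprod]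
        rw [hθu, htu] at e2 ⊢
        have hk : (k : ℝ) = μ + u * (μ + u) := by linear_combination -e2
        rw [hk]
        ring
      exact_mod_cast h5
    · rw [hθu, htu] at hkr
      have h5 : ((μ : ℕ) : ℝ) ≤ ((u * (u + 1) : ℕ) : ℝ) := by
        push_cast
        linarith
      exact_mod_cast h5
    · refine ⟨g, ?_⟩
      have h5 : (((n - 1) * u + k : ℕ) : ℝ) = (((2 * u + μ) * g : ℕ) : ℝ) := by
        push_cast [Nat.cast_sub (by omega : 1 ≤ n)]
        rw [hθu, hsu] at hg'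
        linear_combination hg'
      exact_mod_cast h5
  · left
    have hirr : Irrational s := by
      rw [hs]
      have h5 : ((μ : ℝ) ^ 2 + 4 * (k - μ)) = ((μ ^ 2 + 4 * (k - μ) : ℕ) : ℝ) := by
        push_cast [Nat.cast_sub h2.le]
        ring
      rw [h5]
      rw [irrational_sqrt_natCast_iff]
      rintro ⟨d, hd⟩
      exact hint ⟨d, by rw [sq]; exact hd.symm⟩
    have h6 : s * (((n : ℝ) - 1) - 2 * g) = (n - 1) * μ - 2 * k := by
      rw [hθ] at hg'
      linear_combination 2 * hg'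
    have h7 : ((n : ℝ) - 1) - 2 * g = 0 := by
      by_contra hne
      have h8 : s = (((n - 1) * μ - 2 * k : ℤ) : ℝ) / (((n : ℤ) - 1 - 2 * g : ℤ) : ℝ) := by
        push_cast
        rw [eq_div_iff hne]
        exact h6
      apply hirr
      refine ⟨((((n : ℤ) - 1) * μ - 2 * k : ℤ) : ℚ) / (((n : ℤ) - 1 - 2 * g : ℤ) : ℚ), ?_⟩
      rw [h8]
      push_cast
      rfl
    have h9 : ((n : ℝ) - 1) * μ - 2 * k = 0 := by rw [← h6, h7, mul_zero]
    have h10 : n = 2 * g + 1 := by
      have : (n : ℝ) = ((2 * g + 1 : ℕ) : ℝ) := by push_cast; linarith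
      exact_mod_cast this
    have h11 : (n - 1) * μ = 2 * k := by
      have : (((n - 1) * μ : ℕ) : ℝ) = ((2 * k : ℕ) : ℝ) := by
        push_cast [Nat.cast_sub (by omega : 1 ≤ n)]
        linarith
      exact_mod_cast this
    have h12 : μ = 1 := by
      by_contra hne
      have h13 : 2 ≤ μ := by omega
      have h14 : (n - 1) * 2 ≤ (n - 1) * μ := Nat.mul_le_mul_left _ h13
      omega
    subst h12
    rw [mul_one] at h11
    have h15 : n - k - 1 = k := by omega
    rw [Nat.sub_zero, h15, mul_one] at hpe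
    have h16 : k - 1 = 1 := by
      have : k * (k - 1) = k * 1 := by rw [hpe, mul_one]
      exact Nat.eq_of_mul_eq_mul_left (by omega) this
    omega

end

end Pool.Agent.TFQ
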