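import Pool.Agent.TFQ.Extract
import Pool.Agent.TFQ.Graph

set_option autoImplicit false

/-!
# Triangle-free strongly regular graphs on `r q` vertices, `q` a prime power: the bound
-/

namespace Pool.Agent.TFQ

theorem n_le {θ μ n : ℤ} (hθ : 1 ≤ θ) (hμ : 1 ≤ μ) (hK : μ ≤ θ * (θ + 1))
    (h : n * μ = P1 θ μ * P2 θ μ) : n ≤ (θ ^ 2 + 3 * θ) ^ 2 := by
  have h1 : 0 ≤ (θ ^ 2 + θ - μ) * ((θ + 1) * (θ + 2) * μ - θ * (θ - 1)) := by
    apply mul_nonneg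
    · linarith [show θ * (θ + 1) = θ ^ 2 + θ by ring]
    · have h2 : (θ + 1) * (θ + 2) * 1 ≤ (θ + 1) * (θ + 2) * μ :=
        mul_le_mul_of_nonneg_left hμ (by positivity)
      nlinarith
  have h3 : (θ ^ 2 + 3 * θ) ^ 2 * μ - n * μ =
      (θ ^ 2 + θ - μ) * ((θ + 1) * (θ + 2) * μ - θ * (θ - 1)) := by
    rw [h]; unfold P1 P2; ring
  have h4 : n * μ ≤ (θ ^ 2 + 3 * θ) ^ 2 * μ := by linarith
  exact le_of_mul_le_mul_right h4 (by linarith)

theorem bound_n {V : Type*} [Fintype V] [DecidableEq V] (Γ : SimpleGraph V) [DecidableRel Γ.Adj]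
    {n k μ : ℕ} (hsrg : Γ.IsSRGWith n k 0 μ) (h1 : 1 ≤ μ) (h2 : μ < k)
    {r p a : ℕ} (hp : p.Prime) (hn : n = r * p ^ a) : n ≤ (16 * r) ^ 8 := by
  rcases Nat.eq_zero_or_pos n with h0 | h0
  · omega
  have hr : 0 < r := by
    rcases Nat.eq_zero_or_pos r with h3 | h3
    · rw [h3, zero_mul] at hn; omega
    · exact h3
  rcases params hsrg h1 h2 h0 with ⟨h5, -, -⟩ | ⟨θ, hθ, hk, hnμ, hK, -⟩
  · rw [h5]
    calc 5 ≤ (16 * 1) ^ 8 := by norm_num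
      _ ≤ (16 * r) ^ 8 := Nat.pow_le_pow_left (by omega) 8
  have hθz : (1 : ℤ) ≤ θ := by exact_mod_cast hθ
  have hμz : (1 : ℤ) ≤ μ := by exact_mod_cast h1
  have hrz : (1 : ℤ) ≤ r := by exact_mod_cast hr
  have hKz : (μ : ℤ) ≤ θ * (θ + 1) := by exact_mod_cast hK
  have hθr : (θ : ℤ) ≤ 248 * r ^ 2 := by
    rcases Nat.lt_or_ge θ 2 with hlt | hge
    · have h3 : θ = 1 := by omega
      rw [h3]
      push_cast
      nlinarith
    · have hA0 : (0 : ℤ) ≤ P1 θ μ := by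
        unfold P1
        have : (0 : ℤ) ≤ θ * (θ - 1) := mul_nonneg (by omega) (by omega)
        positivity
      have hB0 : (0 : ℤ) ≤ P2 θ μ := by unfold P2; positivity
      have hh : r * p ^ a * μ = (P1 θ μ).toNat * (P2 θ μ).toNat := by
        have : ((r * p ^ a * μ : ℕ) : ℤ) = ((P1 θ μ).toNat * (P2 θ μ).toNat : ℕ) := by
          rw [Nat.cast_mul (P1 (θ : ℤ) μ).toNat, Int.toNat_of_nonneg hA0, Int.toNat_of_nonneg hB0,
            ← hn]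
          push_cast
          rw [hnμ]; rfl
        exact_mod_cast this
      obtain ⟨x, hx⟩ := data hp hge h1 hK hr (Int.toNat_of_nonneg hA0) (Int.toNat_of_nonneg hB0) hh
      exact bound (by omega) (by exact_mod_cast pow_pos hp.pos x) (by omega) (by omega) hx
  have hnle := n_le hθz hμz hKz (n := n) hnμ
  have h3 : (θ : ℤ) ^ 2 + 3 * θ ≤ (16 * r) ^ 4 := by
    have h4 : (θ : ℤ) ^ 2 ≤ (248 * r ^ 2) ^ 2 := pow_le_pow_left₀ (by omega) hθr 2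
    have h5 : (r : ℤ) ^ 2 * 1 ≤ r ^ 2 * r ^ 2 :=
      mul_le_mul_of_nonneg_left (one_le_pow₀ hrz) (by positivity)
    nlinarith
  have h6 : (n : ℤ) ≤ (16 * r) ^ 8 := by
    calc (n : ℤ) ≤ ((θ : ℤ) ^ 2 + 3 * θ) ^ 2 := hnle
      _ ≤ ((16 * r) ^ 4) ^ 2 := pow_le_pow_left₀ (by positivity) h3 2
      _ = (16 * r) ^ 8 := by ring
  exact_mod_cast h6

end Pool.Agent.TFQ
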