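import Pool.Agent.TFQ.Bound

set_option autoImplicit false

/-!
# Extraction of the data
-/

namespace Pool.Agent.TFQ

/-- the common part of the two factors -/
theorem extract1 {A B r μ a p x y c d : ℕ} (hp : p.Prime) (hc : ¬ p ∣ c) (hr : 0 < r)
    (hμ : 0 < μ) (hA : A = p ^ x * c) (hB : B = p ^ y * d) (hxy : x ≤ y)
    (h : r * p ^ a * μ = A * B) :
    ∃ Y : ℕ, 0 < Y ∧ Y * A = r * p ^ x * μ ∧ Y * p ^ a = p ^ x * B := by
  have hcop : Nat.Coprime c (p ^ a) := ((hp.coprime_iff_not_dvd.2 hc).pow_left a).symm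
  have hdvd : c ∣ r * μ := by
    have h1 : c ∣ p ^ a * (r * μ) := by
      refine ⟨p ^ x * B, ?_⟩
      rw [show p ^ a * (r * μ) = r * p ^ a * μ by ring, h, hA]; ring
    exact hcop.dvd_of_dvd_mul_left h1
  obtain ⟨Y, hY⟩ := hdvd
  have hc0 : 0 < c := by
    rcases Nat.eq_zero_or_pos c with h0 | h0
    · rw [h0, zero_mul] at hY
      have := mul_pos hr hμ
      omega
    · exact h0
  refine ⟨Y, ?_, ?_, ?_⟩
  · rcases Nat.eq_zero_or_pos Y with h0 | h0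
    · rw [h0, mul_zero] at hY
      have := mul_pos hr hμ
      omega
    · exact h0
  · rw [hA, show r * p ^ x * μ = p ^ x * (r * μ) by ring, hY]; ring
  · apply Nat.eq_of_mul_eq_mul_left hc0
    calc c * (Y * p ^ a) = (c * Y) * p ^ a := by ring
      _ = r * p ^ a * μ := by rw [← hY]; ring
      _ = c * (p ^ x * B) := by rw [h, hA]; ring

theorem extract {A B r μ a p : ℕ} (hp : p.Prime) (hA : 0 < A) (hB : 0 < B) (hr : 0 < r)
    (hμ : 0 < μ) (h : r * p ^ a * μ = A * B) :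
    ∃ x Y : ℕ, 0 < Y ∧ p ^ x ∣ A ∧ p ^ x ∣ B ∧
    ((Y * A = r * p ^ x * μ ∧ Y * p ^ a = p ^ x * B ∧ ¬ p ∣ A / p ^ x) ∨
      (Y * B = r * p ^ x * μ ∧ Y * p ^ a = p ^ x * A ∧ ¬ p ∣ B / p ^ x)) := by
  obtain ⟨x, c, hc, hxc⟩ := Nat.exists_eq_pow_mul_and_not_dvd hA.ne' p hp.ne_one
  obtain ⟨y, d, hd, hyd⟩ := Nat.exists_eq_pow_mul_and_not_dvd hB.ne' p hp.ne_one
  rcases le_total x y with hxy | hxy
  · obtain ⟨Y, h1, h2, h3⟩ := extract1 hp hc hr hμ hxc hyd hxy h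
    refine ⟨x, Y, h1, ⟨c, hxc⟩, ?_, Or.inl ⟨h2, h3, ?_⟩⟩
    · rw [hyd]; exact Dvd.dvd.mul_right (pow_dvd_pow p hxy) d
    · rw [hxc, Nat.mul_div_cancel_left _ (pow_pos hp.pos x)]; exact hc
  · obtain ⟨Y, h1, h2, h3⟩ := extract1 hp hd hr hμ hyd hxc hxy (by rw [h, mul_comm])
    refine ⟨y, Y, h1, ?_, ⟨d, hyd⟩, Or.inr ⟨h2, h3, ?_⟩⟩
    · rw [hxc]; exact Dvd.dvd.mul_right (pow_dvd_pow p hxy) c
    · rw [hyd, Nat.mul_div_cancel_left _ (pow_pos hp.pos y)]; exact hd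

theorem ppdvd {p x θ : ℕ} (hp : p.Prime) (h : p ^ x ∣ θ * (θ + 3)) :
    p ^ x ∣ 3 * θ ∨ p ^ x ∣ 3 * (θ + 3) := by
  by_cases h1 : p ∣ θ
  · by_cases h2 : p ∣ θ + 3
    · have h3 : p ∣ 3 := (Nat.dvd_add_right h1).1 h2
      have h4 : p = 3 := (Nat.prime_dvd_prime_iff_eq hp Nat.prime_three).1 h3
      subst h4
      obtain ⟨u, hu⟩ := h1
      have h5 : 3 ^ x ∣ (9 * u) * (u + 1) := by
        have : θ * (θ + 3) = (9 * u) * (u + 1) := by rw [hu]; ring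
        rwa [this] at h
      by_cases h6 : 3 ∣ u
      · left
        have h7 : ¬ 3 ∣ u + 1 := by omega
        have h8 : Nat.Coprime (3 ^ x) (u + 1) :=
          (Nat.prime_three.coprime_iff_not_dvd.2 h7).pow_left x
        have h9 := h8.dvd_of_dvd_mul_right h5
        rw [hu, show 3 * (3 * u) = 9 * u by ring]
        exact h9
      · right
        have h8 : Nat.Coprime (3 ^ x) u := (Nat.prime_three.coprime_iff_not_dvd.2 h6).pow_left x
        have h9 : 3 ^ x ∣ (9 * (u + 1)) * u := by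
          rw [show (9 * (u + 1)) * u = (9 * u) * (u + 1) by ring]; exact h5
        have h10 := h8.dvd_of_dvd_mul_right h9
        rw [hu, show 3 * (3 * u + 3) = 9 * (u + 1) by ring]
        exact h10
    · left
      have h8 : Nat.Coprime (p ^ x) (θ + 3) := (hp.coprime_iff_not_dvd.2 h2).pow_left x
      exact Dvd.dvd.mul_left (h8.dvd_of_dvd_mul_right h) 3
  · right
    have h8 : Nat.Coprime (p ^ x) θ := (hp.coprime_iff_not_dvd.2 h1).pow_left x
    exact Dvd.dvd.mul_left (h8.dvd_of_dvd_mul_left h) 3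

/-- the comparison of `q` with `P ^ 3` -/
theorem cmp {p x a : ℕ} (hp : p.Prime) :
    ((p ^ x : ℕ) : ℤ) ^ 3 ∣ ((p ^ a : ℕ) : ℤ) ∨ ((p ^ a : ℕ) : ℤ) < ((p ^ x : ℕ) : ℤ) ^ 3 := by
  rcases le_or_gt (x * 3) a with h | h
  · left
    have h1 : (p ^ x) ^ 3 ∣ p ^ a := by rw [← pow_mul]; exact pow_dvd_pow p h
    exact_mod_cast h1
  · right
    have h1 : p ^ a < (p ^ x) ^ 3 := by rw [← pow_mul]; exact Nat.pow_lt_pow_right hp.one_lt h
    exact_mod_cast h1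

/-- the data in the four cases -/
inductive Data (r θ μ P q : ℤ) : Prop
  | small2 (s Y : ℤ) (hs : 0 < s) (hY : 0 < Y) (hP : P ≤ 18) (hθ : 3 * (θ + 3) = P * s)
      (hI : Y * P2 θ μ = r * P * μ) : Data r θ μ P q
  | small1 (s Y : ℤ) (hs : 0 < s) (hY : 0 < Y) (hP : P ≤ 18) (hθ : 3 * (θ + 3) = P * s)
      (hI : Y * P1 θ μ = r * P * μ) : Data r θ μ P q
  | big1 (s Y : ℤ) (hs : 0 < s) (hY : 0 < Y) (hP : 18 < P) (hθ : 3 * (θ + 3) = P * s)
      (hYs : 3 * r < Y * s) (hI : Y * P1 θ μ = r * P * μ) : Data r θ μ P q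
  | eqM (Y : ℤ) (hY : 0 < Y) (hμ : μ = θ) (hP : P ≤ 9)
      (hI : Y * P1 θ μ = r * P * μ) : Data r θ μ P q
  | t2 (s M Y : ℤ) (hs : 0 < s) (hY : 0 < Y) (hM : 0 < M) (hθ : 3 * θ = P * s)
      (hμ : 3 * μ = P * M)
      (key : P * (M * (3 * r - Y * s) - Y * s ^ 2) = 3 * Y * (2 * M + s))
      (hk : 0 < 3 * r - Y * s) (h : P ≤ 9 * Y * s ∨ s * (M + s) ≤ 9 * Y) : Data r θ μ P q
  | t1 (s M Y : ℤ) (hs : 0 < s) (hY : 0 < Y) (hM : 0 < M) (hθ : 3 * θ = P * s)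
      (hμ : 3 * μ = P * M) (hMs : M ≠ s)
      (key : P * (M * (3 * r - Y * s) - Y * s ^ 2) = 3 * Y * (M - s))
      (hk : 0 < 3 * r - Y * s) (h : P ≤ 9 * Y * s ∨ s * (M + s) ≤ 9 * Y) : Data r θ μ P q
  | p2 (s M Y : ℤ) (hP : 18 < P) (hs : 0 < s) (hY : 0 < Y) (hM : 0 ≤ M)
      (hθ : 3 * (θ + 3) = P * s) (hμ : 3 * μ = P * M + 18) (hk : Y * s ≤ 3 * r)
      (key : P * (Y * s ^ 2 - (3 * r - Y * s) * M) = 3 * Y * M + 54 * r - 3 * Y * s)
      (h : P ∣ 108 * r - 9 * Y * s ∨ 2 * s * (M + s) ≤ 27 * Y) : Data r θ μ P q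
  | p1 (s M Y : ℤ) (hP : 18 < P) (hs : 0 < s) (hY : 0 < Y) (hM : 0 ≤ M)
      (hθ : 3 * (θ + 3) = P * s) (hμ : 3 * μ = P * M + 18) (hk : Y * s ≤ 3 * r)
      (key : P * (Y * s ^ 2 - (3 * r - Y * s) * M) = 6 * Y * M + 54 * r + 3 * Y * s)
      (h : P ∣ 9 * Y * s + 54 * r ∨ 5 * s * (M + s) ≤ 54 * Y) : Data r θ μ P q

theorem data {θ μ r p a A B : ℕ} (hp : p.Prime) (hθ : 2 ≤ θ) (hμ : 0 < μ)
    (hK : μ ≤ θ * (θ + 1)) (hr : 0 < r) (hA : (A : ℤ) = P1 θ μ) (hB : (B : ℤ) = P2 θ μ)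
    (h : r * p ^ a * μ = A * B) :
    ∃ x : ℕ, Data r θ μ (p ^ x : ℕ) (p ^ a : ℕ) := by
  have hθz : (2 : ℤ) ≤ θ := by exact_mod_cast hθ
  have hμz : (0 : ℤ) < μ := by exact_mod_cast hμ
  have hrz : (0 : ℤ) < r := by exact_mod_cast hr
  have hKz : (μ : ℤ) ≤ θ * (θ + 1) := by exact_mod_cast hK
  have hA0 : 0 < A := by
    have : (0 : ℤ) < A := by
      rw [hA]; unfold P1
      nlinarith
    exact_mod_cast this
  have hB0 : 0 < B := by
    have : (0 : ℤ) < B := by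
      rw [hB]; unfold P2
      nlinarith
    exact_mod_cast this
  obtain ⟨x, Y, hY, hPA, hPB, hcase⟩ := extract hp hA0 hB0 hr hμ h
  refine ⟨x, ?_⟩
  have hcmp := cmp (x := x) (a := a) hp
  obtain ⟨P, hPdef⟩ : ∃ P : ℕ, P = p ^ x := ⟨_, rfl⟩
  obtain ⟨q, hqdef⟩ : ∃ q : ℕ, q = p ^ a := ⟨_, rfl⟩
  rw [← hPdef] at hPA hPB hcase hcmp ⊢
  rw [← hqdef] at hcase hcmp ⊢
  have hP0 : 0 < P := by rw [hPdef]; exact pow_pos hp.pos x
  have hPz : (0 : ℤ) < P := by exact_mod_cast hP0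
  have hYz : (0 : ℤ) < Y := by exact_mod_cast hY
  have hPAz : (P : ℤ) ∣ P1 θ μ := by rw [← hA]; exact_mod_cast hPA
  have hPBz : (P : ℤ) ∣ P2 θ μ := by rw [← hB]; exact_mod_cast hPB
  have hPm : (P : ℤ) ∣ μ + 2 * θ := by
    have := dvd_sub hPBz hPAz
    have h1 : P2 (θ : ℤ) μ - P1 θ μ = μ + 2 * θ := by unfold P1 P2; ring
    rwa [h1] at this
  have hPw : P ∣ θ * (θ + 3) := by
    have h1 : (P : ℤ) ∣ (θ + 1) * (μ + 2 * θ) - P1 θ μ := dvd_sub (Dvd.dvd.mul_left hPm _) hPAz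
    have h2 : ((θ : ℤ) + 1) * (μ + 2 * θ) - P1 θ μ = θ * (θ + 3) := by unfold P1; ring
    rw [h2] at h1
    exact_mod_cast h1
  have h3 : P ∣ 3 * θ ∨ P ∣ 3 * (θ + 3) := by
    rw [hPdef] at hPw ⊢
    exact ppdvd hp hPw
  rcases h3 with h3 | h3
  · -- `P` divides `3 θ`
    obtain ⟨s, hs⟩ := h3
    have hs0 : 0 < s := by
      rcases Nat.eq_zero_or_pos s with h0 | h0
      · rw [h0] at hs; omega
      · exact h0
    have hsz : (0 : ℤ) < s := by exact_mod_cast hs0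
    have hθs : 3 * (θ : ℤ) = P * s := by exact_mod_cast hs
    have hM : (P : ℤ) ∣ 3 * μ := by
      have h1 : (P : ℤ) ∣ 3 * (μ + 2 * θ) - P * (2 * s) :=
        dvd_sub (Dvd.dvd.mul_left hPm _) (dvd_mul_right _ _)
      have h2 : 3 * ((μ : ℤ) + 2 * θ) - P * (2 * s) = 3 * μ := by linear_combination 2 * hθs
      rwa [h2] at h1
    obtain ⟨M, hM⟩ := hM
    have hM0 : 0 < M := by
      have : 0 < (P : ℤ) * M := by rw [← hM]; positivity
      exact (mul_pos_iff_of_pos_left hPz).1 this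
    rcases hcase with ⟨h4, h5, h6⟩ | ⟨h4, h5, -⟩
    · have hI : (Y : ℤ) * P1 θ μ = r * P * μ := by rw [← hA]; exact_mod_cast h4
      have hq : (Y : ℤ) * q = P * P2 θ μ := by rw [← hB]; exact_mod_cast h5
      obtain ⟨k1, k2, k3⟩ := c1t hPz hsz hYz hM0 hθs hM (by omega) hμz hI hq hcmp
      by_cases hMs : M = s
      · have hμθ : (μ : ℤ) = θ := by
          have : 3 * (μ : ℤ) = 3 * θ := by rw [hM, hθs, hMs]
          omega
        refine Data.eqM Y hYz hμθ ?_ hI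
        obtain ⟨c, hc⟩ := hPA
        have hc' : A / P = c := by rw [hc, Nat.mul_div_cancel_left _ hP0]
        rw [hc'] at h6
        have h7 : (9 * c : ℤ) = P * (2 * s ^ 2) := by
          have h8 : (P : ℤ) * (9 * c) = P * (P * (2 * s ^ 2)) := by
            have h9 : (A : ℤ) = P * c := by exact_mod_cast hc
            have h10 : (P : ℤ) * c = 2 * θ * θ := by
              rw [← h9, hA, hμθ]; unfold P1; ring
            have : (P : ℤ) * (9 * c) = 2 * (3 * θ) * (3 * θ) := by linear_combination 9 * h10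
            rw [this, hθs]; ring
          exact mul_left_cancel₀ hPz.ne' h8
        have h8 : P ∣ 9 * c := ⟨2 * s ^ 2, by exact_mod_cast h7⟩
        have h9 : Nat.Coprime P c := by
          rw [hPdef]; exact (hp.coprime_iff_not_dvd.2 h6).pow_left x
        have h10 : P ∣ 9 := h9.dvd_of_dvd_mul_right h8
        exact_mod_cast Nat.le_of_dvd (by norm_num) h10
      · exact Data.t1 s M Y hsz hYz hM0 hθs hM hMs k1 k2 k3
    · have hI : (Y : ℤ) * P2 θ μ = r * P * μ := by rw [← hB]; exact_mod_cast h4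
      have hq : (Y : ℤ) * q = P * P1 θ μ := by rw [← hA]; exact_mod_cast h5
      obtain ⟨k1, k2, k3⟩ := c2t hPz hsz hYz hM0 hθs hM hI hq hcmp
      exact Data.t2 s M Y hsz hYz hM0 hθs hM k1 k2 k3
  · -- `P` divides `3 (θ + 3)`
    obtain ⟨s, hs⟩ := h3
    have hs0 : 0 < s := by
      rcases Nat.eq_zero_or_pos s with h0 | h0
      · rw [h0] at hs; omega
      · exact h0
    have hsz : (0 : ℤ) < s := by exact_mod_cast hs0
    have hθs : 3 * ((θ : ℤ) + 3) = P * s := by exact_mod_cast hs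
    rcases le_or_gt (P : ℤ) 18 with hP18 | hP18
    · rcases hcase with ⟨h4, h5, -⟩ | ⟨h4, h5, -⟩
      · exact Data.small1 s Y hsz hYz hP18 hθs (by rw [← hA]; exact_mod_cast h4)
      · exact Data.small2 s Y hsz hYz hP18 hθs (by rw [← hB]; exact_mod_cast h4)
    have hM : (P : ℤ) ∣ 3 * μ - 18 := by
      have h1 : (P : ℤ) ∣ 3 * (μ + 2 * θ) - P * (2 * s) :=
        dvd_sub (Dvd.dvd.mul_left hPm _) (dvd_mul_right _ _)
      have h2 : 3 * ((μ : ℤ) + 2 * θ) - P * (2 * s) = 3 * μ - 18 := by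
        linear_combination 2 * hθs
      rwa [h2] at h1
    obtain ⟨M, hM⟩ := hM
    have hM' : 3 * (μ : ℤ) = P * M + 18 := by linarith
    have hM0 : 0 ≤ M := by
      by_contra hneg
      have h1 : M ≤ -1 := by omega
      have h2 : (P : ℤ) * M ≤ P * (-1) := mul_le_mul_of_nonneg_left h1 hPz.le
      have h3 : (P : ℤ) * M ≤ -19 := by linarith
      omega
    rcases hcase with ⟨h4, h5, -⟩ | ⟨h4, h5, -⟩
    · have hI : (Y : ℤ) * P1 θ μ = r * P * μ := by rw [← hA]; exact_mod_cast h4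
      have hq : (Y : ℤ) * q = P * P2 θ μ := by rw [← hB]; exact_mod_cast h5
      rcases le_or_gt ((Y : ℤ) * s) (3 * r) with hk | hk
      · obtain ⟨k1, k2⟩ := c1p hP18 hsz hYz hM0 hθs hM' hI hq hcmp
        exact Data.p1 s M Y hP18 hsz hYz hM0 hθs hM' hk k1 k2
      · exact Data.big1 s Y hsz hYz hP18 hθs hk hI
    · have hI : (Y : ℤ) * P2 θ μ = r * P * μ := by rw [← hB]; exact_mod_cast h4
      have hq : (Y : ℤ) * q = P * P1 θ μ := by rw [← hA]; exact_mod_cast h5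
      have hk : (Y : ℤ) * s ≤ 3 * r := by
        have h6 : (Y : ℤ) * (θ + 3) * μ ≤ r * P * μ := by
          rw [← hI]; unfold P2
          have : (Y : ℤ) * μ ≤ Y * (θ * (θ + 1)) := mul_le_mul_of_nonneg_left hKz hYz.le
          linarith [this, show (Y : ℤ) * ((θ + 2) * μ + θ * (θ + 1)) =
            Y * (θ + 2) * μ + Y * (θ * (θ + 1)) by ring,
            show (Y : ℤ) * (θ + 3) * μ = Y * (θ + 2) * μ + Y * μ by ring]
        have h7 : (Y : ℤ) * (θ + 3) ≤ r * P := (mul_le_mul_iff_left₀ hμz).1 h6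
        have h8 : (P : ℤ) * (Y * s) ≤ P * (3 * r) := by
          have : (P : ℤ) * (Y * s) = 3 * (Y * (θ + 3)) := by linear_combination -Y * hθs
          rw [this]; linarith
        exact (mul_le_mul_iff_right₀ hPz).1 h8
      obtain ⟨k1, k2⟩ := c2p hP18 hsz hYz hM0 hθs hM' hI hq hcmp
      exact Data.p2 s M Y hP18 hsz hYz hM0 hθs hM' hk k1 k2

theorem bound {r θ μ P q : ℤ} (hr : 0 < r) (hP : 0 < P) (hθ : 0 < θ) (hμ : 0 < μ)
    (h : Data r θ μ P q) : θ ≤ 248 * r ^ 2 := by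
  have aux : ∀ Y : ℤ, 0 < Y → Y * P1 θ μ = r * P * μ → Y * (θ + 1) ≤ r * P := by
    intro Y hY hI
    have h6 : Y * (θ + 1) * μ ≤ r * P * μ := by
      rw [← hI]; unfold P1
      have : 0 ≤ Y * (θ * (θ - 1)) := by
        apply mul_nonneg hY.le
        apply mul_nonneg hθ.le
        omega
      linarith [this, show Y * ((θ + 1) * μ + θ * (θ - 1)) =
        Y * (θ + 1) * μ + Y * (θ * (θ - 1)) by ring]
    exact (mul_le_mul_iff_left₀ hμ).1 h6
  rcases h with ⟨s, Y, hs, hY, hP18, hθs, hI⟩ | ⟨s, Y, hs, hY, hP18, hθs, hI⟩ |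
    ⟨s, Y, hs, hY, hP18, hθs, hYs, hI⟩ | ⟨Y, hY, hμθ, hP9, hI⟩ |
    ⟨s, M, Y, hs, hY, hM, hθs, hμs, key, hk, h⟩ | ⟨s, M, Y, hs, hY, hM, hθs, hμs, hMs, key, hk, h⟩ |
    ⟨s, M, Y, hP18, hs, hY, hM, hθs, hμs, hk, key, h⟩ |
    ⟨s, M, Y, hP18, hs, hY, hM, hθs, hμs, hk, key, h⟩
  · have h7 : Y * (θ + 1) ≤ r * P := by
      have h6 : Y * (θ + 1) * μ ≤ r * P * μ := by
        rw [← hI]; unfold P2
        have : 0 ≤ Y * (μ + θ * (θ + 1)) := by positivity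
        linarith [this, show Y * ((θ + 2) * μ + θ * (θ + 1)) =
          Y * (θ + 1) * μ + Y * (μ + θ * (θ + 1)) by ring]
      exact (mul_le_mul_iff_left₀ hμ).1 h6
    have h8 : r * P ≤ r * 18 := mul_le_mul_of_nonneg_left hP18 hr.le
    nlinarith
  · have h7 := aux Y hY hI
    have h8 : r * P ≤ r * 18 := mul_le_mul_of_nonneg_left hP18 hr.le
    nlinarith
  · have h7 := aux Y hY hI
    have h9 : P ≤ 6 * Y := by
      have h10 : P * 1 ≤ P * (Y * s - 3 * r) := mul_le_mul_of_nonneg_left (by omega) hP.le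
      have h11 : P * (Y * s - 3 * r) ≤ 6 * Y := by
        have : P * (Y * s) = 3 * (Y * (θ + 3)) := by linear_combination -Y * hθs
        rw [mul_sub, this]; linarith
      linarith
    have h10 : Y * (θ + 1) ≤ Y * (6 * r) := by
      have : r * P ≤ r * (6 * Y) := mul_le_mul_of_nonneg_left h9 hr.le
      linarith
    have h11 : θ + 1 ≤ 6 * r := (mul_le_mul_iff_right₀ hY).1 h10
    nlinarith
  · have h7 := aux Y hY hI
    have h8 : r * P ≤ r * 9 := mul_le_mul_of_nonneg_left hP9 hr.le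
    nlinarith
  · exact b2t hP hs hY hM hθs key hk h
  · exact b1t hP hs hY hM hθs hMs key hk h
  · exact b2p hP18 hs hY hr hM hθs hk key h
  · exact b1p hP18 hs hY hr hM hθs hk key h

end Pool.Agent.TFQ
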