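import Pool.Agent.TFQ.Chk
import Pool.Agent.TFQ.Extract

set_option autoImplicit false

/-!
# Soundness of the checks
-/

namespace Pool.Agent.TFQ

theorem blt_false {a b : ℕ} (h : b ≤ a) : Nat.blt a b = false := by
  cases hb : Nat.blt a b
  · rfl
  · rw [Nat.blt_eq] at hb
    omega

theorem beq_false' {a b : ℕ} (h : a ≠ b) : Nat.beq a b = false := by
  cases hb : Nat.beq a b
  · rfl
  · exact absurd (Nat.eq_of_beq_eq_true hb) h

theorem ble_false {a b : ℕ} (h : b < a) : Nat.ble a b = false := by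
  cases hb : Nat.ble a b
  · rfl
  · have := Nat.le_of_ble_eq_true hb
    omega

theorem tst_sound {p a : ℕ} (hp : p.Prime) (ha : a ≤ 64) :
    ∀ L : List ℕ, (∀ d ∈ L, d.Prime) → tst (p ^ a) L = true := by
  intro L
  induction L with
  | nil => intro _; rfl
  | cons d L ih =>
    intro hL
    unfold tst
    rw [Bool.and_eq_true, Bool.or_eq_true]
    refine ⟨?_, ih fun e he => hL e (List.mem_cons_of_mem d he)⟩
    have hd : d.Prime := hL d (List.mem_cons_self ..)
    by_cases h : p ^ a % d = 0
    · right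
      have h1 : d ∣ p ^ a := Nat.dvd_of_mod_eq_zero h
      have h2 : d = p := (Nat.prime_dvd_prime_iff_eq hd hp).1 (hd.dvd_of_dvd_pow h1)
      rw [h2, Nat.mod_eq_zero_of_dvd (pow_dvd_pow p ha)]
      rfl
    · left
      rw [Nat.blt_eq]
      omega

theorem fin_sound {r θ μ p x a : ℕ} (h : fin r θ μ (p ^ x) = true) (hp : p.Prime) (ha : a ≤ 64)
    (hr : 0 < r) (hθ : 2 ≤ θ) (hμ : 0 < μ) (hK : μ ≤ θ * (θ + 1))
    (hN : ((θ + 1) * μ + θ * (θ - 1)) * ((θ + 2) * μ + θ * (θ + 1)) = p ^ a * (r * μ))
    (hI : 2 * θ + μ ∣ (r * p ^ a - 1) * θ + (μ + θ * (θ + μ))) :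
    inL (r * p ^ a) (μ + θ * (θ + μ)) μ = true := by
  unfold fin at h
  simp only [force_eq] at h
  rw [hN, Nat.mul_mod_left, Nat.mul_div_cancel _ (mul_pos hr hμ), Nat.mod_eq_zero_of_dvd hI,
    blt_false hθ, beq_false' hμ.ne', blt_false hK, blt_false (le_refl 0), Bool.false_or,
    Bool.false_or, Bool.false_or, Bool.false_or, Bool.false_or] at h
  have h1 : (Nat.blt 1 (p ^ x) && Nat.blt 0 ((p ^ x) ^ 64 % p ^ a)) = false := by
    rcases Nat.eq_zero_or_pos x with h0 | h0
    · rw [h0, pow_zero]; rfl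
    · have h2 : p ^ a ∣ (p ^ x) ^ 64 := by
        rw [← pow_mul]
        exact pow_dvd_pow p (by omega)
      rw [Nat.mod_eq_zero_of_dvd h2, blt_false (le_refl 0), Bool.and_false]
  have h3 : tst (p ^ a) PR = true := by
    apply tst_sound hp ha
    intro d hd
    unfold PR at hd
    simp only [List.mem_cons, List.not_mem_nil, or_false] at hd
    rcases hd with rfl | rfl | rfl | rfl | rfl | rfl | rfl | rfl | rfl | rfl | rfl <;> norm_num
  rw [h1, h3, Bool.not_true, Bool.false_or, Bool.false_or] at h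
  exact h

theorem finA_get {r θ μ a b P : ℕ} (h : finA r a b P = true) (ha : 3 * θ = a) (hb : 3 * μ = b) :
    fin r θ μ P = true := by
  unfold finA at h
  simp only [force_eq] at h
  rw [← ha, ← hb, Nat.mul_mod_right, Nat.mul_mod_right, blt_false (le_refl 0), Bool.false_or,
    Bool.false_or, Nat.mul_div_cancel_left _ (by norm_num), Nat.mul_div_cancel_left _ (by norm_num)]
    at h
  exact h

theorem finB_get {r θ μ a b P : ℕ} (h : finB r a b P = true) (ha : 3 * (θ + 3) = a)
    (hb : 3 * μ = b + 18) : fin r θ μ P = true := by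
  unfold finB at h
  simp only [force_eq] at h
  have h1 : b % 3 = 0 := by omega
  have h2 : b / 3 + 6 = μ := by omega
  have h3 : a % 3 = 0 := by omega
  have h4 : a / 3 - 3 = θ := by omega
  rw [h1, h2, h3, h4, blt_false (le_refl 0), Bool.false_or, Bool.false_or] at h
  exact h

theorem chP_get {r s Y : ℕ} (h : chP r = true) (hs : 0 < s) (hY : 0 < Y) (hYs : Y * s ≤ 3 * r) :
    (3 * r ≤ Y * s ∨ ((∀ P ≤ 9 * Y * s, chA r s Y P = true) ∧
      ∀ M, M * s ≤ 9 * Y → chB r s Y M = true)) ∧
    (∀ d ≤ 6 * r, chC r s Y d = true) ∧ (∀ d ≤ 5 * r, chD r s Y d = true) ∧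
    ∀ M, M * (2 * s) ≤ 27 * Y → chE r s Y M = true := by
  unfold chP at h
  have hs1 : s - 1 < 3 * r := by
    have : 1 * s ≤ Y * s := Nat.mul_le_mul_right s hY
    omega
  have h1 := allN_get h (s - 1) hs1
  simp only [force_eq] at h1
  rw [Nat.sub_add_cancel hs] at h1
  have hY1 : Y - 1 < 3 * r / s := by
    have : Y ≤ 3 * r / s := (Nat.le_div_iff_mul_le hs).2 hYs
    omega
  have h2 := allN_get h1 (Y - 1) hY1
  rw [Nat.sub_add_cancel hY] at h2
  rw [Bool.and_eq_true, Bool.or_eq_true, Bool.and_eq_true, Bool.and_eq_true,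
    Bool.and_eq_true] at h2
  obtain ⟨h3, h4, h5, h6⟩ := h2
  refine ⟨?_, ?_, ?_, ?_⟩
  · rcases h3 with h3 | ⟨h3, h7⟩
    · exact Or.inl (Nat.le_of_ble_eq_true h3)
    · refine Or.inr ⟨fun P hP => allN_get h3 P (by omega), fun M hM => allN_get h7 M ?_⟩
      have : M ≤ 9 * Y / s := (Nat.le_div_iff_mul_le hs).2 hM
      omega
  · exact fun d hd => allN_get h4 d (by omega)
  · exact fun d hd => allN_get h5 d (by omega)
  · intro M hM
    refine allN_get h6 M ?_
    have : M ≤ 27 * Y / (2 * s) := (Nat.le_div_iff_mul_le (by omega)).2 hM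
    omega

/-- `D` with `D = d` as integers -/
theorem sub_cast {a b : ℕ} {c : ℤ} (h : (a : ℤ) - b = c) (hc : 0 ≤ c) : ((a - b : ℕ) : ℤ) = c := by
  omega

theorem quo_int {N D M : ℕ} {f : ℕ → Bool} (h : quo N D f = true) (hN : (0 : ℤ) < N)
    (hM : (M : ℤ) * D = N) : f M = true := by
  have h1 : 0 < (M : ℤ) * D := by rw [hM]; exact hN
  have h2 : 0 < D := by
    rcases Nat.eq_zero_or_pos D with h0 | h0
    · rw [h0] at h1; simp at h1
    · exact h0
  exact quo_get h h2 (by exact_mod_cast hM)

theorem link {r θ μ P q : ℕ} (hc : chAll r = true) (hr : 0 < r) (hP0 : 0 < P) (hθ2 : 2 ≤ θ)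
    (hμ0 : 0 < μ) (hd : Data r θ μ P q) : fin r θ μ P = true := by
  unfold chAll at hc
  rw [Bool.and_eq_true, Bool.and_eq_true, Bool.and_eq_true] at hc
  obtain ⟨hcP, hcS, hcG, hcH⟩ := hc
  have hrz : (0 : ℤ) < r := by exact_mod_cast hr
  have hPz : (0 : ℤ) < P := by exact_mod_cast hP0
  have hμz : (0 : ℤ) < μ := by exact_mod_cast hμ0
  have hθz : (2 : ℤ) ≤ θ := by exact_mod_cast hθ2
  have aux : ∀ Y : ℤ, 0 < Y → Y * P1 θ μ = r * P * μ → Y * (θ + 1) ≤ r * P := by
    intro Y hY hI
    have h6 : Y * (θ + 1) * μ ≤ r * P * μ := by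
      rw [← hI]; unfold P1
      have : 0 ≤ Y * ((θ : ℤ) * (θ - 1)) := by
        apply mul_nonneg hY.le
        apply mul_nonneg (by omega)
        omega
      linarith [this, show Y * (((θ : ℤ) + 1) * μ + θ * (θ - 1)) =
        Y * (θ + 1) * μ + Y * (θ * (θ - 1)) by ring]
    exact (mul_le_mul_iff_left₀ hμz).1 h6
  have hF2 : ∀ Y : ℕ, chF r P θ Y = true → 0 < Y → (Y : ℤ) * P2 θ μ = r * P * μ →
      fin r θ μ P = true := by
    intro Y h hY hI
    unfold chF at h
    rw [Bool.and_eq_true] at h
    have hYz : (0 : ℤ) < Y := by exact_mod_cast hY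
    unfold P2 at hI
    have e1 : (μ : ℤ) * (r * P - Y * (θ + 2)) = θ * (θ + 1) * Y := by linear_combination -hI
    have e2 : (0 : ℤ) < θ * (θ + 1) * Y := by positivity
    have e3 : (0 : ℤ) < r * P - Y * (θ + 2) := by
      rw [← e1] at e2
      exact (mul_pos_iff_of_pos_left hμz).1 e2
    refine quo_int (M := μ) (f := fun μ => fin r θ μ P) h.1 ?_ ?_
    · push_cast; exact e2
    · rw [sub_cast (c := r * P - Y * (θ + 2)) (by push_cast; ring) e3.le, e1]; push_cast; ring
  have hF1 : ∀ Y : ℕ, chF r P θ Y = true → 0 < Y → (Y : ℤ) * P1 θ μ = r * P * μ →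
      fin r θ μ P = true := by
    intro Y h hY hI
    unfold chF at h
    rw [Bool.and_eq_true] at h
    have hYz : (0 : ℤ) < Y := by exact_mod_cast hY
    unfold P1 at hI
    have e1 : (μ : ℤ) * (r * P - Y * (θ + 1)) = θ * (θ - 1) * Y := by linear_combination -hI
    have e2 : (0 : ℤ) < θ * (θ - 1) * Y := by
      apply mul_pos _ hYz
      apply mul_pos (by omega) (by omega)
    have e3 : (0 : ℤ) < r * P - Y * (θ + 1) := by
      rw [← e1] at e2
      exact (mul_pos_iff_of_pos_left hμz).1 e2
    have e4 : ((θ - 1 : ℕ) : ℤ) = θ - 1 := by omega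
    refine quo_int (M := μ) (f := fun μ => fin r θ μ P) h.2 ?_ ?_
    · push_cast; rw [e4]; exact e2
    · rw [sub_cast (c := r * P - Y * (θ + 1)) (by push_cast; ring) e3.le, e1]
      push_cast; rw [e4]
  have hS : ∀ s Y : ℕ, 0 < Y → P ≤ 18 → 3 * (θ + 3) = P * s → Y * (θ + 1) ≤ r * P →
      chF r P θ Y = true := by
    intro s Y hY hP hθs hYP
    unfold chS at hcS
    have h1 := allN_get hcS P (by omega)
    have h2 : θ + 1 ≤ r * P := by
      calc θ + 1 = 1 * (θ + 1) := (one_mul _).symm
        _ ≤ Y * (θ + 1) := Nat.mul_le_mul_right _ hY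
        _ ≤ r * P := hYP
    have h3 : s < 3 * r + 7 := by
      have : P * s < P * (3 * r + 7) := by
        have h8 : P * (3 * r + 7) = 3 * (r * P) + 7 * P := by ring
        rw [← hθs, h8]
        omega
      exact lt_of_mul_lt_mul_left this (Nat.zero_le P)
    have h4 := allN_get h1 s h3
    simp only [force_eq] at h4
    have h5 : P * s % 3 = 0 := by omega
    have h6 : P * s / 3 - 3 = θ := by omega
    rw [h5, h6, blt_false (le_refl 0), blt_false hθ2, Bool.false_or, Bool.false_or] at h4
    refine allN_get h4 Y ?_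
    have : Y ≤ r * P / (θ + 1) := (Nat.le_div_iff_mul_le (by omega)).2 hYP
    omega
  rcases hd with ⟨s, Y, hs, hY, hP18, hθs, hI⟩ | ⟨s, Y, hs, hY, hP18, hθs, hI⟩ |
    ⟨s, Y, hs, hY, hP18, hθs, hYs, hI⟩ | ⟨Y, hY, hμθ, hP9, hI⟩ |
    ⟨s, M, Y, hs, hY, hM, hθs, hμs, key, hk, h⟩ | ⟨s, M, Y, hs, hY, hM, hθs, hμs, hMs, key, hk, h⟩ |
    ⟨s, M, Y, hP18, hs, hY, hM, hθs, hμs, hk, key, h⟩ |
    ⟨s, M, Y, hP18, hs, hY, hM, hθs, hμs, hk, key, h⟩
  · -- small2
    lift s to ℕ using hs.le
    lift Y to ℕ using hY.le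
    have h7 : (Y : ℤ) * (θ + 1) ≤ r * P := by
      have h6 : (Y : ℤ) * (θ + 1) * μ ≤ r * P * μ := by
        rw [← hI]; unfold P2
        have : 0 ≤ (Y : ℤ) * (μ + θ * (θ + 1)) := by positivity
        linarith [this, show (Y : ℤ) * ((θ + 2) * μ + θ * (θ + 1)) =
          Y * (θ + 1) * μ + Y * (μ + θ * (θ + 1)) by ring]
      exact (mul_le_mul_iff_left₀ hμz).1 h6
    exact hF2 Y (hS s Y (by exact_mod_cast hY) (by exact_mod_cast hP18) (by exact_mod_cast hθs)
      (by exact_mod_cast h7)) (by exact_mod_cast hY) hI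
  · -- small1
    lift s to ℕ using hs.le
    lift Y to ℕ using hY.le
    have h7 := aux Y hY hI
    exact hF1 Y (hS s Y (by exact_mod_cast hY) (by exact_mod_cast hP18) (by exact_mod_cast hθs)
      (by exact_mod_cast h7)) (by exact_mod_cast hY) hI
  · -- big1
    lift s to ℕ using hs.le
    lift Y to ℕ using hY.le
    have h7 := aux Y hY hI
    have h9 : (P : ℤ) ≤ 6 * Y := by
      have h10 : (P : ℤ) * 1 ≤ P * (Y * s - 3 * r) :=
        mul_le_mul_of_nonneg_left (by omega) hPz.le
      have h11 : (P : ℤ) * (Y * s - 3 * r) ≤ 6 * Y := by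
        have : (P : ℤ) * (Y * s) = 3 * (Y * (θ + 3)) := by linear_combination -(Y : ℤ) * hθs
        rw [mul_sub, this]; linarith
      linarith
    have h10 : (Y : ℤ) * (θ + 1) ≤ Y * (6 * r) := by
      have : (r : ℤ) * P ≤ r * (6 * Y) := mul_le_mul_of_nonneg_left h9 hrz.le
      linarith
    have h11 : (θ : ℤ) + 1 ≤ 6 * r := (mul_le_mul_iff_right₀ hY).1 h10
    unfold chG at hcG
    have g1 := allN_get hcG θ (by omega)
    have hθs' : P * s = 3 * θ + 9 := by
      have : (P : ℤ) * s = 3 * θ + 9 := by linarith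
      exact_mod_cast this
    have hP19 : 19 ≤ P := by omega
    have g2 := allN_get g1 s (by
      have h12 : 19 * s ≤ P * s := Nat.mul_le_mul_right s hP19
      omega)
    have g3 := quo_get g2 (by omega) hθs'
    rw [blt_false hP19, Bool.false_or] at g3
    have h7' : Y * (θ + 1) ≤ r * P := by exact_mod_cast h7
    have g4 := allN_get g3 Y (by
      have : Y ≤ r * P / (θ + 1) := (Nat.le_div_iff_mul_le (by omega)).2 h7'
      omega)
    exact hF1 Y g4 (by exact_mod_cast hY) hI
  · -- eqM
    lift Y to ℕ using hY.le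
    have h7 := aux Y hY hI
    have hμθ' : μ = θ := by exact_mod_cast hμθ
    subst hμθ'
    unfold P1 at hI
    have h8 : (2 * Y * μ : ℤ) = r * P := by
      have h9 : (μ : ℤ) * (2 * Y * μ) = μ * (r * P) := by linear_combination hI
      exact mul_left_cancel₀ hμz.ne' h9
    have h8' : 2 * Y * μ = r * P := by exact_mod_cast h8
    have hY' : 1 ≤ Y := by omega
    have hP9' : P ≤ 9 := by exact_mod_cast hP9
    have h9 : μ < 5 * r := by
      have h10 : 2 * 1 * μ ≤ 2 * Y * μ := by
        apply Nat.mul_le_mul_right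
        omega
      have h11 : r * P ≤ r * 9 := Nat.mul_le_mul_left r hP9'
      omega
    unfold chH at hcH
    have g1 := allN_get hcH μ h9
    have g2 := allN_get g1 P (by omega)
    have g3 : r * P % (2 * μ) = 0 := by
      rw [← h8', show 2 * Y * μ = Y * (2 * μ) by ring]
      exact Nat.mul_mod_left _ _
    rw [g3, blt_false (le_refl 0), beq_false' hμ0.ne', Bool.false_or, Bool.false_or] at g2
    exact g2
  · -- t2
    lift s to ℕ using hs.le
    lift Y to ℕ using hY.le
    lift M to ℕ using hM.le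
    have hYs : Y * s ≤ 3 * r := by
      have : (Y : ℤ) * s ≤ 3 * r := by linarith
      exact_mod_cast this
    have hnk : ¬ 3 * r ≤ Y * s := by
      intro h1
      have : (3 * r : ℤ) ≤ Y * s := by exact_mod_cast h1
      linarith
    obtain ⟨h1, -⟩ := chP_get hcP (by exact_mod_cast hs) (by exact_mod_cast hY) hYs
    have h2 := h1.resolve_left hnk
    have hθ' : 3 * θ = P * s := by exact_mod_cast hθs
    have hμ' : 3 * μ = P * M := by exact_mod_cast hμs
    have k0 : ((3 * r - Y * s : ℕ) : ℤ) = 3 * r - Y * s := by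
      rw [Nat.cast_sub hYs]; push_cast; ring
    rcases h with h | h
    · have h3 := h2.1 P (by exact_mod_cast h)
      unfold chA at h3
      rw [Bool.and_eq_true] at h3
      have e1 : (M : ℤ) * (P * (3 * r - Y * s) - 6 * Y) = Y * s * (s * P + 3) := by
        linear_combination key
      have e2 : (0 : ℤ) < Y * s * (s * P + 3) := by positivity
      have e3 : (0 : ℤ) < P * (3 * r - Y * s) - 6 * Y := by
        rw [← e1] at e2
        exact (mul_pos_iff_of_pos_left hM).1 e2
      refine finA_get (quo_int (M := M) (f := fun M => finA r (P * s) (P * M) P)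
        h3.1 ?_ ?_) hθ' hμ'
      · push_cast; exact e2
      · rw [sub_cast (c := P * (3 * r - Y * s) - 6 * Y) (by push_cast; rw [k0]) e3.le, e1]
        push_cast; ring
    · have h3 := h2.2 M (by
        have : (M : ℤ) * s ≤ 9 * Y := by nlinarith
        exact_mod_cast this)
      unfold chB at h3
      rw [Bool.and_eq_true, Bool.and_eq_true] at h3
      have e2 : (0 : ℤ) < 3 * Y * (2 * M + s) := by positivity
      have e3 : (0 : ℤ) < M * (3 * r - Y * s) - Y * s ^ 2 := by
        rw [← key] at e2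
        exact (mul_pos_iff_of_pos_left hPz).1 e2
      refine finA_get (quo_int (M := P) (f := fun P => finA r (P * s) (P * M) P)
        h3.1 ?_ ?_) hθ' hμ'
      · push_cast; exact e2
      · rw [sub_cast (c := M * (3 * r - Y * s) - Y * s ^ 2) (by push_cast; rw [k0]) e3.le, key]
        push_cast; ring
  · -- t1
    lift s to ℕ using hs.le
    lift Y to ℕ using hY.le
    lift M to ℕ using hM.le
    have hYs : Y * s ≤ 3 * r := by
      have : (Y : ℤ) * s ≤ 3 * r := by linarith
      exact_mod_cast this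
    have hnk : ¬ 3 * r ≤ Y * s := by
      intro h1
      have : (3 * r : ℤ) ≤ Y * s := by exact_mod_cast h1
      linarith
    obtain ⟨h1, -⟩ := chP_get hcP (by exact_mod_cast hs) (by exact_mod_cast hY) hYs
    have h2 := h1.resolve_left hnk
    have hθ' : 3 * θ = P * s := by exact_mod_cast hθs
    have hμ' : 3 * μ = P * M := by exact_mod_cast hμs
    have k0 : ((3 * r - Y * s : ℕ) : ℤ) = 3 * r - Y * s := by
      rw [Nat.cast_sub hYs]; push_cast; ring
    rcases h with h | h
    · have h3 := h2.1 P (by exact_mod_cast h)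
      unfold chA at h3
      rw [Bool.and_eq_true] at h3
      have e1 : (M : ℤ) * (P * (3 * r - Y * s) - 3 * Y) = Y * s * (s * P - 3) := by
        linear_combination key
      have e0 : (0 : ℤ) < s * P - 3 := by
        have : (s : ℤ) * P = 3 * θ := by linarith [mul_comm (s : ℤ) P]
        omega
      have e2 : (0 : ℤ) < Y * s * (s * P - 3) := by positivity
      have e3 : (0 : ℤ) < P * (3 * r - Y * s) - 3 * Y := by
        rw [← e1] at e2
        exact (mul_pos_iff_of_pos_left hM).1 e2
      have e4 : ((s * P - 3 : ℕ) : ℤ) = s * P - 3 :=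
        sub_cast (by push_cast; ring) e0.le
      refine finA_get (quo_int (M := M) (f := fun M => finA r (P * s) (P * M) P)
        h3.2 ?_ ?_) hθ' hμ'
      · push_cast; rw [e4]; exact e2
      · rw [sub_cast (c := P * (3 * r - Y * s) - 3 * Y) (by push_cast; rw [k0]) e3.le, e1]
        push_cast; rw [e4]
    · have h3 := h2.2 M (by
        have : (M : ℤ) * s ≤ 9 * Y := by nlinarith
        exact_mod_cast this)
      unfold chB at h3
      rw [Bool.and_eq_true, Bool.and_eq_true] at h3
      have hMs' : M ≠ s := by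
        intro h4; exact hMs (by rw [h4])
      rcases Nat.lt_or_gt_of_ne hMs' with hlt | hgt
      · have hltz : (M : ℤ) < s := by exact_mod_cast hlt
        have e4 : ((s - M : ℕ) : ℤ) = s - M := by rw [Nat.cast_sub hlt.le]
        have e2 : (0 : ℤ) < 3 * Y * (s - M) := by
          apply mul_pos (by positivity)
          omega
        have key' : (P : ℤ) * (Y * s ^ 2 - M * (3 * r - Y * s)) = 3 * Y * (s - M) := by
          linear_combination -key
        have e3 : (0 : ℤ) < Y * s ^ 2 - M * (3 * r - Y * s) := by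
          rw [← key'] at e2
          exact (mul_pos_iff_of_pos_left hPz).1 e2
        refine finA_get (quo_int (M := P) (f := fun P => finA r (P * s) (P * M) P)
          h3.2.2 ?_ ?_) hθ' hμ'
        · push_cast; rw [e4]; exact e2
        · rw [sub_cast (c := Y * s ^ 2 - M * (3 * r - Y * s)) (by push_cast; rw [k0]) e3.le, key']
          push_cast; rw [e4]
      · have hltz : (s : ℤ) < M := by exact_mod_cast hgt
        have e4 : ((M - s : ℕ) : ℤ) = M - s := by rw [Nat.cast_sub hgt.le]
        have e2 : (0 : ℤ) < 3 * Y * (M - s) := by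
          apply mul_pos (by positivity)
          omega
        have e3 : (0 : ℤ) < M * (3 * r - Y * s) - Y * s ^ 2 := by
          rw [← key] at e2
          exact (mul_pos_iff_of_pos_left hPz).1 e2
        refine finA_get (quo_int (M := P) (f := fun P => finA r (P * s) (P * M) P)
          h3.2.1 ?_ ?_) hθ' hμ'
        · push_cast; rw [e4]; exact e2
        · rw [sub_cast (c := M * (3 * r - Y * s) - Y * s ^ 2) (by push_cast; rw [k0]) e3.le, key]
          push_cast; rw [e4]
  · -- p2
    lift s to ℕ using hs.le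
    lift Y to ℕ using hY.le
    lift M to ℕ using hM
    have hYs : Y * s ≤ 3 * r := by exact_mod_cast hk
    obtain ⟨-, h1, -, h3⟩ := chP_get hcP (by exact_mod_cast hs) (by exact_mod_cast hY) hYs
    have hθ' : 3 * (θ + 3) = P * s := by exact_mod_cast hθs
    have hμ' : 3 * μ = P * M + 18 := by exact_mod_cast hμs
    have k0 : ((3 * r - Y * s : ℕ) : ℤ) = 3 * r - Y * s := by
      rw [Nat.cast_sub hYs]; push_cast; ring
    rcases h with h | h
    · obtain ⟨d, hd⟩ := h
      have hd0 : 0 < d := by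
        have : 0 < (P : ℤ) * d := by rw [← hd]; linarith
        exact (mul_pos_iff_of_pos_left hPz).1 this
      lift d to ℕ using hd0.le
      have hd6 : d ≤ 6 * r := by
        have h4 : (19 : ℤ) * d ≤ P * d := mul_le_mul_of_nonneg_right (by omega) hd0.le
        have h5 : (0 : ℤ) ≤ 9 * Y * s := by positivity
        have h6 : (d : ℤ) ≤ 6 * r := by linarith
        exact_mod_cast h6
      have g1 := h1 d hd6
      unfold chC at g1
      have g2 : quo (P * (Y * s ^ 2) + 3 * Y * s - 54 * r) (P * (3 * r - Y * s) + 3 * Y)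
          (fun M => finB r (P * s) (P * M) P) = true := by
        refine quo_int g1 ?_ ?_
        · rw [sub_cast (c := 108 * r - 9 * Y * s) (by push_cast; ring) (by linarith)]
          linarith
        · rw [sub_cast (c := 108 * r - 9 * Y * s) (by push_cast; ring) (by linarith), ← hd]
      have e1 : (M : ℤ) * (P * (3 * r - Y * s) + 3 * Y) = P * (Y * s ^ 2) + 3 * Y * s - 54 * r := by
        linear_combination -key
      have e2 : (0 : ℤ) ≤ P * (Y * s ^ 2) + 3 * Y * s - 54 * r := by
        rw [← e1]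
        have : (0 : ℤ) ≤ 3 * r - Y * s := by linarith
        positivity
      have e5 : (0 : ℤ) < P * (3 * r - Y * s) + 3 * Y := by
        have : (0 : ℤ) ≤ 3 * r - Y * s := by linarith
        positivity
      have g3 : P * (3 * r - Y * s) + 3 * Y > 0 := by
        have : ((P * (3 * r - Y * s) + 3 * Y : ℕ) : ℤ) > 0 := by push_cast; rw [k0]; exact e5
        exact_mod_cast this
      refine finB_get (quo_get (M := M) (f := fun M => finB r (P * s) (P * M) P) g2 g3 ?_) hθ' hμ'
      have e6 : ((M * (P * (3 * r - Y * s) + 3 * Y) : ℕ) : ℤ) =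
          ((P * (Y * s ^ 2) + 3 * Y * s - 54 * r : ℕ) : ℤ) := by
        rw [sub_cast (c := P * (Y * s ^ 2) + 3 * Y * s - 54 * r) (by push_cast; ring) e2]
        push_cast; rw [k0]; exact e1
      exact_mod_cast e6
    · have g1 := h3 M (by
        have : (M : ℤ) * (2 * s) ≤ 27 * Y := by nlinarith
        exact_mod_cast this)
      unfold chE at g1
      rw [Bool.and_eq_true] at g1
      have e2 : (0 : ℤ) < 3 * Y * M + 54 * r - 3 * Y * s := by
        have : (0 : ℤ) ≤ 3 * Y * M := by positivity
        linarith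
      have key' : (P : ℤ) * (Y * s ^ 2 - (3 * r - Y * s) * M) = 3 * Y * M + 54 * r - 3 * Y * s :=
        key
      have e3 : (0 : ℤ) < Y * s ^ 2 - (3 * r - Y * s) * M := by
        rw [← key'] at e2
        exact (mul_pos_iff_of_pos_left hPz).1 e2
      refine finB_get (quo_int (M := P) (f := fun P => finB r (P * s) (P * M) P)
        g1.1 ?_ ?_) hθ' hμ'
      · rw [sub_cast (c := 3 * Y * M + 54 * r - 3 * Y * s) (by push_cast; ring) e2.le]; exact e2
      · rw [sub_cast (c := Y * s ^ 2 - (3 * r - Y * s) * M) (by push_cast; rw [k0]) e3.le,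
          sub_cast (c := 3 * Y * M + 54 * r - 3 * Y * s) (by push_cast; ring) e2.le, key']
  · -- p1
    lift s to ℕ using hs.le
    lift Y to ℕ using hY.le
    lift M to ℕ using hM
    have hYs : Y * s ≤ 3 * r := by exact_mod_cast hk
    obtain ⟨-, -, h1, h3⟩ := chP_get hcP (by exact_mod_cast hs) (by exact_mod_cast hY) hYs
    have hθ' : 3 * (θ + 3) = P * s := by exact_mod_cast hθs
    have hμ' : 3 * μ = P * M + 18 := by exact_mod_cast hμs
    have k0 : ((3 * r - Y * s : ℕ) : ℤ) = 3 * r - Y * s := by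
      rw [Nat.cast_sub hYs]; push_cast; ring
    rcases h with h | h
    · obtain ⟨d, hd⟩ := h
      have hd0 : 0 < d := by
        have : 0 < (P : ℤ) * d := by rw [← hd]; positivity
        exact (mul_pos_iff_of_pos_left hPz).1 this
      lift d to ℕ using hd0.le
      have hd6 : d ≤ 5 * r := by
        have h4 : (19 : ℤ) * d ≤ P * d := mul_le_mul_of_nonneg_right (by omega) hd0.le
        have h6 : (d : ℤ) ≤ 5 * r := by linarith
        exact_mod_cast h6
      have g1 := h1 d hd6
      unfold chD at g1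
      have g2 : quo (P * (Y * s ^ 2) - 3 * Y * s - 54 * r) (P * (3 * r - Y * s) + 6 * Y)
          (fun M => finB r (P * s) (P * M) P) = true := by
        refine quo_int g1 ?_ ?_
        · push_cast; positivity
        · push_cast; rw [← hd]
      have e1 : (M : ℤ) * (P * (3 * r - Y * s) + 6 * Y) = P * (Y * s ^ 2) - 3 * Y * s - 54 * r := by
        linear_combination -key
      have e2 : (0 : ℤ) ≤ P * (Y * s ^ 2) - 3 * Y * s - 54 * r := by
        rw [← e1]
        have : (0 : ℤ) ≤ 3 * r - Y * s := by linarith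
        positivity
      have e5 : (0 : ℤ) < P * (3 * r - Y * s) + 6 * Y := by
        have : (0 : ℤ) ≤ 3 * r - Y * s := by linarith
        positivity
      have g3 : P * (3 * r - Y * s) + 6 * Y > 0 := by
        have : ((P * (3 * r - Y * s) + 6 * Y : ℕ) : ℤ) > 0 := by push_cast; rw [k0]; exact e5
        exact_mod_cast this
      refine finB_get (quo_get (M := M) (f := fun M => finB r (P * s) (P * M) P) g2 g3 ?_) hθ' hμ'
      have e7 : ((P * (Y * s ^ 2) - 3 * Y * s : ℕ) : ℤ) = P * (Y * s ^ 2) - 3 * Y * s :=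
        sub_cast (by push_cast; ring) (by linarith)
      have e6 : ((M * (P * (3 * r - Y * s) + 6 * Y) : ℕ) : ℤ) =
          ((P * (Y * s ^ 2) - 3 * Y * s - 54 * r : ℕ) : ℤ) := by
        rw [sub_cast (c := P * (Y * s ^ 2) - 3 * Y * s - 54 * r) (by rw [e7]; push_cast; ring) e2]
        push_cast; rw [k0]; exact e1
      exact_mod_cast e6
    · have g1 := h3 M (by
        have : (M : ℤ) * (2 * s) ≤ 27 * Y := by nlinarith
        exact_mod_cast this)
      unfold chE at g1
      rw [Bool.and_eq_true] at g1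
      have e2 : (0 : ℤ) < 6 * Y * M + 54 * r + 3 * Y * s := by positivity
      have e3 : (0 : ℤ) < Y * s ^ 2 - (3 * r - Y * s) * M := by
        rw [← key] at e2
        exact (mul_pos_iff_of_pos_left hPz).1 e2
      refine finB_get (quo_int (M := P) (f := fun P => finB r (P * s) (P * M) P)
        g1.2 ?_ ?_) hθ' hμ'
      · push_cast; exact e2
      · rw [sub_cast (c := Y * s ^ 2 - (3 * r - Y * s) * M) (by push_cast; rw [k0]) e3.le, key]
        push_cast; ring

end Pool.Agent.TFQ
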