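import Pool.Agent.TFQ.Main
import Pool.Agent.TFQ.Link

set_option autoImplicit false

/-!
# Triangle-free strongly regular graphs on `r q` vertices, `q` a prime power and `r ≤ 10`
-/

namespace Pool.Agent.TFQ

theorem small {V : Type*} [Fintype V] [DecidableEq V] (Γ : SimpleGraph V) [DecidableRel Γ.Adj]
    {n k μ : ℕ} (hsrg : Γ.IsSRGWith n k 0 μ) (h1 : 1 ≤ μ) (h2 : μ < k)
    {r p a : ℕ} (hp : p.Prime) (hr : 0 < r) (hr10 : r ≤ 10) (hn : n = r * p ^ a) :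
    (n = 5 ∧ k = 2 ∧ μ = 1) ∨ (n = 10 ∧ k = 3 ∧ μ = 1) ∨ (n = 16 ∧ k = 5 ∧ μ = 2) ∨
    (n = 50 ∧ k = 7 ∧ μ = 1) ∨ (n = 56 ∧ k = 10 ∧ μ = 2) ∨ (n = 77 ∧ k = 16 ∧ μ = 4) ∨
    (n = 100 ∧ k = 22 ∧ μ = 6) ∨ (n = 162 ∧ k = 21 ∧ μ = 3) ∨ (n = 324 ∧ k = 57 ∧ μ = 12) ∨
    (n = 392 ∧ k = 46 ∧ μ = 6) ∨ (n = 1458 ∧ k = 141 ∧ μ = 15) ∨
    (n = 2916 ∧ k = 330 ∧ μ = 42) ∨ (n = 5832 ∧ k = 441 ∧ μ = 36) := by
  have hpa : 0 < p ^ a := pow_pos hp.pos a
  have hn0 : 0 < n := by rw [hn]; exact mul_pos hr hpa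
  rcases params hsrg h1 h2 hn0 with ⟨h5, h6, h7⟩ | ⟨θ, hθ, hk, hnμ, hK, hI⟩
  · exact Or.inl ⟨h5, h6, h7⟩
  right
  rcases Nat.lt_or_ge θ 2 with hlt | hge
  · have h3 : θ = 1 := by omega
    subst h3
    have h4 : μ ≤ 2 := by omega
    have h5 : μ = 1 ∨ μ = 2 := by omega
    rcases h5 with rfl | rfl
    · left
      refine ⟨?_, by omega, rfl⟩
      norm_num at hnμ
      omega
    · right; left
      refine ⟨?_, by omega, rfl⟩
      norm_num at hnμ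
      omega
  right; right
  have hθz : (1 : ℤ) ≤ θ := by exact_mod_cast hθ
  have hμz : (1 : ℤ) ≤ μ := by exact_mod_cast h1
  have hKz : (μ : ℤ) ≤ θ * (θ + 1) := by exact_mod_cast hK
  have hcast : ((θ - 1 : ℕ) : ℤ) = θ - 1 := by omega
  have hA : ((((θ + 1) * μ + θ * (θ - 1) : ℕ)) : ℤ) = P1 θ μ := by
    unfold P1; push_cast; rw [hcast]
  have hB : ((((θ + 2) * μ + θ * (θ + 1) : ℕ)) : ℤ) = P2 θ μ := by
    unfold P2; push_cast; ring
  have hh : r * p ^ a * μ = ((θ + 1) * μ + θ * (θ - 1)) * ((θ + 2) * μ + θ * (θ + 1)) := by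
    have : ((r * p ^ a * μ : ℕ) : ℤ) =
        (((θ + 1) * μ + θ * (θ - 1)) * ((θ + 2) * μ + θ * (θ + 1)) : ℕ) := by
      rw [Nat.cast_mul ((θ + 1) * μ + θ * (θ - 1)), hA, hB, ← hn, Nat.cast_mul, hnμ]
      rfl
    exact_mod_cast this
  obtain ⟨x, hx⟩ := data hp hge h1 hK hr hA hB hh
  have hθr := bound (by exact_mod_cast hr) (by exact_mod_cast pow_pos hp.pos x)
    (by omega) (by omega) hx
  have hθ2 : θ ≤ 24800 := by
    have h3 : (r : ℤ) ^ 2 ≤ 10 ^ 2 := pow_le_pow_left₀ (by omega) (by exact_mod_cast hr10) 2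
    have h4 : (θ : ℤ) ≤ 24800 := by linarith
    exact_mod_cast h4
  have hnle := n_le hθz hμz hKz (n := n) hnμ
  have ha : a ≤ 64 := by
    have h3 : (n : ℤ) ≤ (24800 ^ 2 + 3 * 24800) ^ 2 := by
      refine hnle.trans (pow_le_pow_left₀ (by positivity) ?_ 2)
      have h4 : (θ : ℤ) ≤ 24800 := by exact_mod_cast hθ2
      nlinarith
    have h5 : n < 2 ^ 64 := by
      have : (n : ℤ) < 2 ^ 64 := by
        refine lt_of_le_of_lt h3 ?_
        norm_num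
      exact_mod_cast this
    have h6 : 2 ^ a < 2 ^ 64 := by
      calc 2 ^ a ≤ p ^ a := Nat.pow_le_pow_left hp.two_le a
        _ = 1 * p ^ a := (one_mul _).symm
        _ ≤ r * p ^ a := Nat.mul_le_mul_right _ hr
        _ = n := hn.symm
        _ < 2 ^ 64 := h5
    exact ((Nat.pow_lt_pow_iff_right (by norm_num)).1 h6).le
  have hch : chAll r = true := by
    have h3 := allN_get check1 (r - 1) (by omega)
    rwa [Nat.sub_add_cancel hr] at h3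
  have hfin := link hch hr (pow_pos hp.pos x) hge h1 hx
  have hin := fin_sound hfin hp ha hr hge h1 hK (by rw [← hh]; ring)
    (by rw [← hk, ← hn]; exact hI)
  rw [← hk, ← hn] at hin
  unfold inL at hin
  simp only [Bool.or_eq_true, Bool.and_eq_true] at hin
  have cv : ∀ {u v w u' v' w' : ℕ}, Nat.beq u u' = true ∧ Nat.beq v v' = true ∧
      Nat.beq w w' = true → u = u' ∧ v = v' ∧ w = w' := by
    intro u v w u' v' w' h
    exact ⟨Nat.eq_of_beq_eq_true h.1, Nat.eq_of_beq_eq_true h.2.1, Nat.eq_of_beq_eq_true h.2.2⟩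
  rcases hin with h | h | h | h | h | h | h | h | h | h
  · exact Or.inl (cv h)
  · exact Or.inr (Or.inl (cv h))
  · exact Or.inr (Or.inr (Or.inl (cv h)))
  · exact Or.inr (Or.inr (Or.inr (Or.inl (cv h))))
  · exact Or.inr (Or.inr (Or.inr (Or.inr (Or.inl (cv h)))))
  · exact Or.inr (Or.inr (Or.inr (Or.inr (Or.inr (Or.inl (cv h))))))
  · exact Or.inr (Or.inr (Or.inr (Or.inr (Or.inr (Or.inr (Or.inl (cv h)))))))
  · exact Or.inr (Or.inr (Or.inr (Or.inr (Or.inr (Or.inr (Or.inr (Or.inl (cv h))))))))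
  · exact Or.inr (Or.inr (Or.inr (Or.inr (Or.inr (Or.inr (Or.inr (Or.inr (Or.inl (cv h)))))))))
  · exact Or.inr (Or.inr (Or.inr (Or.inr (Or.inr (Or.inr (Or.inr (Or.inr (Or.inr (cv h)))))))))

end Pool.Agent.TFQ
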