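import Pool.Agent.TFQ.Core

set_option autoImplicit false

/-!
# The bound `θ ≤ 248 r^2`
-/

namespace Pool.Agent.TFQ

theorem b2t {P s M θ Y r : ℤ} (hP : 0 < P) (hs : 0 < s) (hY : 0 < Y) (hM : 0 < M)
    (hθ : 3 * θ = P * s)
    (key : P * (M * (3 * r - Y * s) - Y * s ^ 2) = 3 * Y * (2 * M + s))
    (hk : 0 < 3 * r - Y * s) (h : P ≤ 9 * Y * s ∨ s * (M + s) ≤ 9 * Y) :
    θ ≤ 248 * r ^ 2 := by
  have hYr : Y < 3 * r := by nlinarith
  have hsr : s < 3 * r := by nlinarith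
  have hr : 0 < r := by omega
  rcases h with h | h
  · have h1 : P * s ≤ 9 * Y * s * s := by nlinarith
    have h2 : Y * s * s ≤ (3 * r) * (3 * r) := by
      apply mul_le_mul (by linarith) hsr.le hs.le (by positivity)
    nlinarith
  · have hl : 0 < M * (3 * r - Y * s) - Y * s ^ 2 := by
      have : 0 < P * (M * (3 * r - Y * s) - Y * s ^ 2) := by rw [key]; positivity
      exact (mul_pos_iff_of_pos_left hP).1 this
    have h1 : P ≤ 3 * Y * (2 * M + s) := by rw [← key]; nlinarith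
    have h2 : P * s ≤ 3 * Y * (2 * M + s) * s := by nlinarith
    have h3 : (2 * M + s) * s ≤ 18 * Y := by nlinarith
    have h4 : 3 * Y * ((2 * M + s) * s) ≤ 3 * Y * (18 * Y) :=
      mul_le_mul_of_nonneg_left h3 (by positivity)
    have h5 : Y * Y ≤ (3 * r) * (3 * r) := mul_le_mul hYr.le hYr.le hY.le (by positivity)
    nlinarith

theorem b2p {P s M θ Y r : ℤ} (hP : 18 < P) (hs : 0 < s) (hY : 0 < Y) (hr : 0 < r)
    (hM : 0 ≤ M) (hθ : 3 * (θ + 3) = P * s) (hk : Y * s ≤ 3 * r)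
    (key : P * (Y * s ^ 2 - (3 * r - Y * s) * M) = 3 * Y * M + 54 * r - 3 * Y * s)
    (h : P ∣ 108 * r - 9 * Y * s ∨ 2 * s * (M + s) ≤ 27 * Y) :
    θ ≤ 248 * r ^ 2 := by
  have hYr : Y ≤ 3 * r := by nlinarith
  have hsr : s ≤ 3 * r := by nlinarith
  have hrr : r * s ≤ r * (3 * r) := mul_le_mul_of_nonneg_left hsr hr.le
  rcases h with h | h
  · have h0 := Int.le_of_dvd (by nlinarith) h
    have h1 : P ≤ 108 * r := by nlinarith
    have h2 : P * s ≤ 108 * r * s := mul_le_mul_of_nonneg_right h1 hs.le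
    nlinarith
  · have hl : 0 < Y * s ^ 2 - (3 * r - Y * s) * M := by
      have : 0 < P * (Y * s ^ 2 - (3 * r - Y * s) * M) := by
        rw [key]
        have := mul_nonneg hY.le hM
        nlinarith
      exact (mul_pos_iff_of_pos_left (by omega)).1 this
    have h1 : P ≤ 3 * Y * M + 54 * r := by nlinarith
    have h2 : P * s ≤ (3 * Y * M + 54 * r) * s := mul_le_mul_of_nonneg_right h1 hs.le
    have h3 : 2 * (M * s) ≤ 27 * Y := by nlinarith
    have h4 : Y * (2 * (M * s)) ≤ Y * (27 * Y) := mul_le_mul_of_nonneg_left h3 hY.le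
    have h5 : Y * Y ≤ (3 * r) * (3 * r) := mul_le_mul hYr hYr hY.le (by positivity)
    nlinarith

theorem b1t {P s M θ Y r : ℤ} (hP : 0 < P) (hs : 0 < s) (hY : 0 < Y) (hM : 0 < M)
    (hθ : 3 * θ = P * s) (hMs : M ≠ s)
    (key : P * (M * (3 * r - Y * s) - Y * s ^ 2) = 3 * Y * (M - s))
    (hk : 0 < 3 * r - Y * s) (h : P ≤ 9 * Y * s ∨ s * (M + s) ≤ 9 * Y) :
    θ ≤ 248 * r ^ 2 := by
  have hYr : Y < 3 * r := by nlinarith
  have hsr : s < 3 * r := by nlinarith
  have hr : 0 < r := by omega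
  rcases h with h | h
  · have h1 : P * s ≤ 9 * Y * s * s := by nlinarith
    have h2 : Y * s * s ≤ (3 * r) * (3 * r) := by
      apply mul_le_mul (by linarith) hsr.le hs.le (by positivity)
    nlinarith
  · have h1 : P ≤ 3 * Y * (M + s) := by
      have h2 : P ∣ 3 * Y * (M - s) := ⟨_, key.symm⟩
      have h3 : 3 * Y * (M - s) ≠ 0 := by
        apply mul_ne_zero (by positivity)
        omega
      have h4 := Int.le_of_dvd (abs_pos.2 h3) ((dvd_abs _ _).2 h2)
      rw [abs_mul, abs_of_pos (by positivity : (0 : ℤ) < 3 * Y)] at h4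
      have h5 : |M - s| ≤ M + s := by
        rw [abs_le]
        constructor <;> omega
      nlinarith
    have h2 : P * s ≤ 3 * Y * (M + s) * s := mul_le_mul_of_nonneg_right h1 hs.le
    have h4 : 3 * Y * (s * (M + s)) ≤ 3 * Y * (9 * Y) :=
      mul_le_mul_of_nonneg_left h (by positivity)
    have h5 : Y * Y ≤ (3 * r) * (3 * r) := mul_le_mul hYr.le hYr.le hY.le (by positivity)
    nlinarith

theorem b1p {P s M θ Y r : ℤ} (hP : 18 < P) (hs : 0 < s) (hY : 0 < Y) (hr : 0 < r)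
    (hM : 0 ≤ M) (hθ : 3 * (θ + 3) = P * s) (hk : Y * s ≤ 3 * r)
    (key : P * (Y * s ^ 2 - (3 * r - Y * s) * M) = 6 * Y * M + 54 * r + 3 * Y * s)
    (h : P ∣ 9 * Y * s + 54 * r ∨ 5 * s * (M + s) ≤ 54 * Y) :
    θ ≤ 248 * r ^ 2 := by
  have hYr : Y ≤ 3 * r := by nlinarith
  have hsr : s ≤ 3 * r := by nlinarith
  have hrr : r * s ≤ r * (3 * r) := mul_le_mul_of_nonneg_left hsr hr.le
  rcases h with h | h
  · have h0 := Int.le_of_dvd (by positivity) h
    have h1 : P ≤ 81 * r := by nlinarith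
    have h2 : P * s ≤ 81 * r * s := mul_le_mul_of_nonneg_right h1 hs.le
    nlinarith
  · have hl : 0 < Y * s ^ 2 - (3 * r - Y * s) * M := by
      have : 0 < P * (Y * s ^ 2 - (3 * r - Y * s) * M) := by
        rw [key]
        have := mul_nonneg hY.le hM
        nlinarith
      exact (mul_pos_iff_of_pos_left (by omega)).1 this
    have h1 : P ≤ 6 * Y * M + 54 * r + 3 * Y * s := by nlinarith
    have h2 : P * s ≤ (6 * Y * M + 54 * r + 3 * Y * s) * s := mul_le_mul_of_nonneg_right h1 hs.le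
    have h3 : 5 * ((6 * M + 3 * s) * s) ≤ 6 * (54 * Y) := by nlinarith
    have h4 : Y * (5 * ((6 * M + 3 * s) * s)) ≤ Y * (6 * (54 * Y)) :=
      mul_le_mul_of_nonneg_left h3 hY.le
    have h5 : Y * Y ≤ (3 * r) * (3 * r) := mul_le_mul hYr hYr hY.le (by positivity)
    nlinarith

end Pool.Agent.TFQ
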