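import Mathlib

set_option autoImplicit false

/-!
# Kernel checks for `r ≤ 10`
-/

namespace Pool.Agent.TFQ

/-- forcing evaluation of a natural number -/
def force {α : Type} (x : ℕ) (k : ℕ → α) : α :=
  match x with
  | 0 => k 0
  | n + 1 => k (n + 1)

theorem force_eq {α : Type} (x : ℕ) (k : ℕ → α) : force x k = k x := by cases x <;> rfl

/-- `P` holds below `n` -/
def allN (P : ℕ → Bool) : ℕ → Bool
  | 0 => true
  | n + 1 => P n && allN P n

theorem allN_get {P : ℕ → Bool} {n : ℕ} (h : allN P n = true) : ∀ m < n, P m = true := by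
  induction n with
  | zero => intro m hm; omega
  | succ n ih =>
    intro m hm
    unfold allN at h
    rw [Bool.and_eq_true] at h
    rcases Nat.lt_succ_iff_lt_or_eq.1 hm with h1 | h1
    · exact ih h.2 m h1
    · rw [h1]; exact h.1

/-- a necessary condition for prime powers -/
def tst (q : ℕ) (L : List ℕ) : Bool :=
  match L with
  | [] => true
  | d :: L => (Nat.blt 0 (q % d) || Nat.beq (d ^ 64 % q) 0) && tst q L

/-- the primes used -/
def PR : List ℕ := [2, 3, 5, 7, 11, 13, 17, 19, 23, 29, 31]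

/-- the parameter sets -/
def inL (n k μ : ℕ) : Bool :=
  (Nat.beq n 50 && (Nat.beq k 7 && Nat.beq μ 1)) ||
  ((Nat.beq n 56 && (Nat.beq k 10 && Nat.beq μ 2)) ||
  ((Nat.beq n 77 && (Nat.beq k 16 && Nat.beq μ 4)) ||
  ((Nat.beq n 100 && (Nat.beq k 22 && Nat.beq μ 6)) ||
  ((Nat.beq n 162 && (Nat.beq k 21 && Nat.beq μ 3)) ||
  ((Nat.beq n 324 && (Nat.beq k 57 && Nat.beq μ 12)) ||
  ((Nat.beq n 392 && (Nat.beq k 46 && Nat.beq μ 6)) ||
  ((Nat.beq n 1458 && (Nat.beq k 141 && Nat.beq μ 15)) ||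
  ((Nat.beq n 2916 && (Nat.beq k 330 && Nat.beq μ 42)) ||
  (Nat.beq n 5832 && (Nat.beq k 441 && Nat.beq μ 36))))))))))

/-- final check of `(r, θ, μ, P)` -/
def fin (r θ μ P : ℕ) : Bool :=
  Nat.blt θ 2 || (Nat.beq μ 0 || (Nat.blt (θ * (θ + 1)) μ ||
    (force (((θ + 1) * μ + θ * (θ - 1)) * ((θ + 2) * μ + θ * (θ + 1))) fun N =>
    (Nat.blt 0 (N % (r * μ)) || (force (N / (r * μ)) fun q =>
    (force (μ + θ * (θ + μ)) fun k =>
    (Nat.blt 0 (((r * q - 1) * θ + k) % (2 * θ + μ)) ||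
    (Nat.blt 1 P && Nat.blt 0 (P ^ 64 % q)) || ((!tst q PR) || inL (r * q) k μ))))))))

/-- `3 θ = a`, `3 μ = b` -/
def finA (r a b P : ℕ) : Bool :=
  Nat.blt 0 (a % 3) || (Nat.blt 0 (b % 3) || (force (a / 3) fun θ => force (b / 3) fun μ =>
    fin r θ μ P))

/-- `3 (θ + 3) = a`, `3 μ = b + 18` -/
def finB (r a b P : ℕ) : Bool :=
  Nat.blt 0 (a % 3) || (Nat.blt 0 (b % 3) || (force (a / 3 - 3) fun θ =>
    force (b / 3 + 6) fun μ => fin r θ μ P))

/-- `f (N / D)` if `D > 0` divides `N` -/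
def quo (N D : ℕ) (f : ℕ → Bool) : Bool :=
  Nat.beq D 0 || (Nat.blt 0 (N % D) || force (N / D) f)

theorem quo_get {N D M : ℕ} {f : ℕ → Bool} (h : quo N D f = true) (hD : 0 < D) (hM : M * D = N) :
    f M = true := by
  unfold quo at h
  rw [force_eq] at h
  have h1 : N % D = 0 := by rw [← hM]; exact Nat.mul_mod_left M D
  have h2 : N / D = M := by rw [← hM]; exact Nat.mul_div_cancel M hD
  rw [h2, h1] at h
  have h3 : Nat.beq D 0 = false := by
    cases hb : Nat.beq D 0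
    · rfl
    · have := Nat.eq_of_beq_eq_true hb; omega
  have h4 : Nat.blt 0 0 = false := rfl
  rw [h3, h4, Bool.false_or, Bool.false_or] at h
  exact h

/-- cases `3 θ = P s`, `P ≤ 9 Y s` -/
def chA (r s Y P : ℕ) : Bool :=
  quo (Y * s * (s * P + 3)) (P * (3 * r - Y * s) - 6 * Y) (fun M => finA r (P * s) (P * M) P) &&
  quo (Y * s * (s * P - 3)) (P * (3 * r - Y * s) - 3 * Y) (fun M => finA r (P * s) (P * M) P)

/-- cases `3 θ = P s`, `s (M + s) ≤ 9 Y` -/
def chB (r s Y M : ℕ) : Bool :=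
  quo (3 * Y * (2 * M + s)) (M * (3 * r - Y * s) - Y * s ^ 2)
    (fun P => finA r (P * s) (P * M) P) &&
  (quo (3 * Y * (M - s)) (M * (3 * r - Y * s) - Y * s ^ 2) (fun P => finA r (P * s) (P * M) P) &&
  quo (3 * Y * (s - M)) (Y * s ^ 2 - M * (3 * r - Y * s)) (fun P => finA r (P * s) (P * M) P))

/-- case `Y P2 = r P μ`, `3 (θ + 3) = P s`, `P` divides `108 r - 9 Y s` -/
def chC (r s Y d : ℕ) : Bool :=
  quo (108 * r - 9 * Y * s) d fun P =>
    quo (P * (Y * s ^ 2) + 3 * Y * s - 54 * r) (P * (3 * r - Y * s) + 3 * Y)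
      fun M => finB r (P * s) (P * M) P

/-- case `Y P1 = r P μ`, `3 (θ + 3) = P s`, `P` divides `9 Y s + 54 r` -/
def chD (r s Y d : ℕ) : Bool :=
  quo (9 * Y * s + 54 * r) d fun P =>
    quo (P * (Y * s ^ 2) - 3 * Y * s - 54 * r) (P * (3 * r - Y * s) + 6 * Y)
      fun M => finB r (P * s) (P * M) P

/-- cases `3 (θ + 3) = P s`, `M` small -/
def chE (r s Y M : ℕ) : Bool :=
  quo (3 * Y * M + 54 * r - 3 * Y * s) (Y * s ^ 2 - (3 * r - Y * s) * M)
    (fun P => finB r (P * s) (P * M) P) &&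
  quo (6 * Y * M + 54 * r + 3 * Y * s) (Y * s ^ 2 - (3 * r - Y * s) * M)
    (fun P => finB r (P * s) (P * M) P)

/-- cases `3 (θ + 3) = P s`, direct -/
def chF (r P θ Y : ℕ) : Bool :=
  quo (θ * (θ + 1) * Y) (r * P - Y * (θ + 2)) (fun μ => fin r θ μ P) &&
  quo (θ * (θ - 1) * Y) (r * P - Y * (θ + 1)) (fun μ => fin r θ μ P)

/-- all pairs `s, Y` with `Y s ≤ 3 r` -/
def chP (r : ℕ) : Bool :=
  allN (fun s' => force (s' + 1) fun s => allN (fun Y' => force (Y' + 1) fun Y =>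
    (Nat.ble (3 * r) (Y * s) || (allN (chA r s Y) (9 * Y * s + 1) &&
      allN (chB r s Y) (9 * Y / s + 1))) &&
    (allN (chC r s Y) (6 * r + 1) && (allN (chD r s Y) (5 * r + 1) &&
      allN (chE r s Y) (27 * Y / (2 * s) + 1)))) (3 * r / s)) (3 * r)

/-- `P ≤ 18` -/
def chS (r : ℕ) : Bool :=
  allN (fun P => allN (fun s => Nat.blt 0 (P * s % 3) || (force (P * s / 3 - 3) fun θ =>
    Nat.blt θ 2 || allN (chF r P θ) (r * P / (θ + 1) + 1))) (3 * r + 7)) 19

/-- `θ < 6 r` -/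
def chG (r : ℕ) : Bool :=
  allN (fun θ => allN (fun s => quo (3 * θ + 9) s fun P =>
    Nat.blt P 19 || allN (chF r P θ) (r * P / (θ + 1) + 1)) ((3 * θ + 9) / 19 + 1)) (6 * r)

/-- `μ = θ` -/
def chH (r : ℕ) : Bool :=
  allN (fun θ => allN (fun P => Nat.beq θ 0 || (Nat.blt 0 (r * P % (2 * θ)) || fin r θ θ P)) 10)
    (5 * r)

/-- everything -/
def chAll (r : ℕ) : Bool := chP r && (chS r && (chG r && chH r))

theorem check1 : allN (fun r => chAll (r + 1)) 10 = true := by decide +kernel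

end Pool.Agent.TFQ
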