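import Mathlib

set_option autoImplicit false

/-!
# Triangle-free strongly regular graphs on `r q` vertices, `q` a prime power: the arithmetic

With `θ` the positive eigenvalue other than `k`, the number `n` of vertices satisfies
`n μ = P1 P2`.
-/

namespace Pool.Agent.TFQ

/-- `k - θ` -/
def P1 (θ μ : ℤ) : ℤ := (θ + 1) * μ + θ * (θ - 1)

/-- `k + t` -/
def P2 (θ μ : ℤ) : ℤ := (θ + 2) * μ + θ * (θ + 1)

/-- first case: `Y P2 = r P μ`, `3 θ = P s` -/
theorem c2t {P s M θ μ Y r q : ℤ} (hP : 0 < P) (hs : 0 < s) (hY : 0 < Y)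
    (hM : 0 < M) (hθ : 3 * θ = P * s) (hμ : 3 * μ = P * M)
    (hI : Y * P2 θ μ = r * P * μ) (hq : Y * q = P * P1 θ μ)
    (hc : P ^ 3 ∣ q ∨ q < P ^ 3) :
    P * (M * (3 * r - Y * s) - Y * s ^ 2) = 3 * Y * (2 * M + s) ∧ 0 < 3 * r - Y * s ∧
    (P ≤ 9 * Y * s ∨ s * (M + s) ≤ 9 * Y) := by
  unfold P1 at hq
  unfold P2 at hI
  have h9 : Y * ((P * s + 6) * (P * M) + P * s * (P * s + 3)) = 3 * r * P * (P * M) := by
    rw [← hθ, ← hμ]; linear_combination 9 * hI
  have key : P * (M * (3 * r - Y * s) - Y * s ^ 2) = 3 * Y * (2 * M + s) := by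
    have h : P * (P * (M * (3 * r - Y * s) - Y * s ^ 2) - 3 * Y * (2 * M + s)) = 0 := by
      linear_combination -h9
    rcases mul_eq_zero.1 h with h | h
    · omega
    · linarith
  have hX : 9 * (Y * q) = P ^ 2 * (P * s * (M + s) + 3 * (M - s)) := by
    have h1 : 9 * (P * ((θ + 1) * μ + θ * (θ - 1))) =
        P * ((3 * θ + 3) * (3 * μ) + 3 * θ * (3 * θ - 3)) := by ring
    rw [hq, h1, hθ, hμ]; ring
  have hl : 0 < M * (3 * r - Y * s) - Y * s ^ 2 := by
    have : 0 < P * (M * (3 * r - Y * s) - Y * s ^ 2) := by rw [key]; positivity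
    exact (mul_pos_iff_of_pos_left hP).1 this
  have hk : 0 < 3 * r - Y * s := by
    have h1 : 0 < M * (3 * r - Y * s) := by nlinarith [mul_pos hY (pow_pos hs 2)]
    exact (mul_pos_iff_of_pos_left hM).1 h1
  refine ⟨key, hk, ?_⟩
  rcases hc with hc | hc
  · left
    obtain ⟨w, hw⟩ := hc
    have h2 : P ∣ 3 * (M - s) := by
      have h3 : P ^ 2 * (P * (9 * Y * w)) = P ^ 2 * (P * s * (M + s) + 3 * (M - s)) := by
        rw [← hX, hw]; ring
      have h4 := mul_left_cancel₀ (pow_ne_zero 2 hP.ne') h3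
      exact ⟨9 * Y * w - s * (M + s), by linear_combination -h4⟩
    have h5 : P ∣ 9 * Y * s := by
      obtain ⟨v, hv⟩ := h2
      exact ⟨M * (3 * r - Y * s) - Y * s ^ 2 - 2 * Y * v, by
        linear_combination -key - 2 * Y * hv⟩
    exact Int.le_of_dvd (by positivity) h5
  · by_cases h : s * (M + s) ≤ 9 * Y
    · exact Or.inr h
    left
    have h1 : 9 * Y + 1 ≤ s * (M + s) := by omega
    have h2 : P ^ 2 * (P * s * (M + s) + 3 * (M - s)) < P ^ 2 * (9 * Y * P) := by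
      rw [← hX]
      have : Y * q < Y * P ^ 3 := (mul_lt_mul_iff_right₀ hY).2 hc
      linarith [this, show P ^ 2 * (9 * Y * P) = 9 * (Y * P ^ 3) by ring]
    have h3 := (mul_lt_mul_iff_right₀ (pow_pos hP 2)).1 h2
    have h4 : P < 3 * s := by nlinarith
    nlinarith

/-- second case: `Y P2 = r P μ`, `3 (θ + 3) = P s` -/
theorem c2p {P s M θ μ Y r q : ℤ} (hP : 18 < P) (hs : 0 < s) (hY : 0 < Y)
    (hM : 0 ≤ M) (hθ : 3 * (θ + 3) = P * s) (hμ : 3 * μ = P * M + 18)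
    (hI : Y * P2 θ μ = r * P * μ) (hq : Y * q = P * P1 θ μ)
    (hc : P ^ 3 ∣ q ∨ q < P ^ 3) :
    P * (Y * s ^ 2 - (3 * r - Y * s) * M) = 3 * Y * M + 54 * r - 3 * Y * s ∧
    (P ∣ 108 * r - 9 * Y * s ∨ 2 * s * (M + s) ≤ 27 * Y) := by
  unfold P1 at hq
  unfold P2 at hI
  have hP0 : 0 < P := by omega
  have h9 : Y * ((P * s - 3) * (P * M + 18) + (P * s - 9) * (P * s - 6)) =
      3 * r * P * (P * M + 18) := by
    rw [← hθ, ← hμ]; linear_combination 9 * hI
  have key : P * (Y * s ^ 2 - (3 * r - Y * s) * M) = 3 * Y * M + 54 * r - 3 * Y * s := by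
    have h : P * (P * (Y * s ^ 2 - (3 * r - Y * s) * M) - (3 * Y * M + 54 * r - 3 * Y * s)) = 0 := by
      linear_combination h9
    rcases mul_eq_zero.1 h with h | h
    · omega
    · linarith
  have hX : 9 * (Y * q) = P ^ 2 * (P * s * (M + s) - 3 * (2 * M + s)) := by
    have h1 : 9 * (P * ((θ + 1) * μ + θ * (θ - 1))) =
        P * ((3 * (θ + 3) - 6) * (3 * μ) + (3 * (θ + 3) - 9) * (3 * (θ + 3) - 12)) := by ring
    rw [hq, h1, hθ, hμ]; ring
  refine ⟨key, ?_⟩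
  rcases hc with hc | hc
  · left
    obtain ⟨w, hw⟩ := hc
    have h2 : P ∣ 3 * (2 * M + s) := by
      have h3 : P ^ 2 * (P * (9 * Y * w)) = P ^ 2 * (P * s * (M + s) - 3 * (2 * M + s)) := by
        rw [← hX, hw]; ring
      have h4 := mul_left_cancel₀ (pow_ne_zero 2 hP0.ne') h3
      exact ⟨s * (M + s) - 9 * Y * w, by linear_combination h4⟩
    have h5 : P ∣ 108 * r - 9 * Y * s := by
      obtain ⟨v, hv⟩ := h2
      exact ⟨2 * (Y * s ^ 2 - (3 * r - Y * s) * M) - Y * v, by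
        linear_combination -2 * key - Y * hv⟩
    exact h5
  · right
    have h2 : P ^ 2 * (P * s * (M + s) - 3 * (2 * M + s)) < P ^ 2 * (9 * Y * P) := by
      rw [← hX]
      have : Y * q < Y * P ^ 3 := (mul_lt_mul_iff_right₀ hY).2 hc
      linarith [this, show P ^ 2 * (9 * Y * P) = 9 * (Y * P ^ 3) by ring]
    have h3 := (mul_lt_mul_iff_right₀ (pow_pos hP0 2)).1 h2
    have h4 : 3 * (3 * (2 * M + s)) ≤ P * (M + s) := by nlinarith
    have h5 : P * (3 * s * (M + s)) < P * (27 * Y + (M + s)) := by nlinarith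
    have h6 := (mul_lt_mul_iff_right₀ hP0).1 h5
    nlinarith

/-- third case: `Y P1 = r P μ`, `3 θ = P s` -/
theorem c1t {P s M θ μ Y r q : ℤ} (hP : 0 < P) (hs : 0 < s) (hY : 0 < Y)
    (hM : 0 < M) (hθ : 3 * θ = P * s) (hμ : 3 * μ = P * M) (hθ1 : 0 < θ) (hμ1 : 0 < μ)
    (hI : Y * P1 θ μ = r * P * μ) (hq : Y * q = P * P2 θ μ)
    (hc : P ^ 3 ∣ q ∨ q < P ^ 3) :
    P * (M * (3 * r - Y * s) - Y * s ^ 2) = 3 * Y * (M - s) ∧ 0 < 3 * r - Y * s ∧
    (P ≤ 9 * Y * s ∨ s * (M + s) ≤ 9 * Y) := by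
  unfold P2 at hq
  unfold P1 at hI
  have h9 : Y * ((P * s + 3) * (P * M) + P * s * (P * s - 3)) = 3 * r * P * (P * M) := by
    rw [← hθ, ← hμ]; linear_combination 9 * hI
  have key : P * (M * (3 * r - Y * s) - Y * s ^ 2) = 3 * Y * (M - s) := by
    have h : P * (P * (M * (3 * r - Y * s) - Y * s ^ 2) - 3 * Y * (M - s)) = 0 := by
      linear_combination -h9
    rcases mul_eq_zero.1 h with h | h
    · omega
    · linarith
  have hX : 9 * (Y * q) = P ^ 2 * (P * s * (M + s) + 3 * (2 * M + s)) := by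
    have h1 : 9 * (P * ((θ + 2) * μ + θ * (θ + 1))) =
        P * ((3 * θ + 6) * (3 * μ) + 3 * θ * (3 * θ + 3)) := by ring
    rw [hq, h1, hθ, hμ]; ring
  have hk : 0 < 3 * r - Y * s := by
    have h1 : Y * (θ + 1) * μ ≤ r * P * μ := by
      rw [← hI]
      have : 0 ≤ Y * (θ * (θ - 1)) := by
        apply mul_nonneg hY.le
        apply mul_nonneg hθ1.le
        omega
      linarith [this, show Y * ((θ + 1) * μ + θ * (θ - 1)) = Y * (θ + 1) * μ + Y * (θ * (θ - 1)) by ring]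
    have h2 : Y * (θ + 1) ≤ r * P := (mul_le_mul_iff_left₀ hμ1).1 h1
    have h3 : 0 < P * (3 * r - Y * s) := by nlinarith
    exact (mul_pos_iff_of_pos_left hP).1 h3
  refine ⟨key, hk, ?_⟩
  rcases hc with hc | hc
  · left
    obtain ⟨w, hw⟩ := hc
    have h2 : P ∣ 3 * (2 * M + s) := by
      have h3 : P ^ 2 * (P * (9 * Y * w)) = P ^ 2 * (P * s * (M + s) + 3 * (2 * M + s)) := by
        rw [← hX, hw]; ring
      have h4 := mul_left_cancel₀ (pow_ne_zero 2 hP.ne') h3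
      exact ⟨9 * Y * w - s * (M + s), by linear_combination -h4⟩
    have h5 : P ∣ 9 * Y * s := by
      obtain ⟨v, hv⟩ := h2
      exact ⟨Y * v - 2 * (M * (3 * r - Y * s) - Y * s ^ 2), by
        linear_combination 2 * key + Y * hv⟩
    exact Int.le_of_dvd (by positivity) h5
  · right
    have h2 : P ^ 2 * (P * s * (M + s) + 3 * (2 * M + s)) < P ^ 2 * (9 * Y * P) := by
      rw [← hX]
      have : Y * q < Y * P ^ 3 := (mul_lt_mul_iff_right₀ hY).2 hc
      linarith [this, show P ^ 2 * (9 * Y * P) = 9 * (Y * P ^ 3) by ring]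
    have h3 := (mul_lt_mul_iff_right₀ (pow_pos hP 2)).1 h2
    have h5 : P * (s * (M + s)) < P * (9 * Y) := by nlinarith
    exact ((mul_lt_mul_iff_right₀ hP).1 h5).le

/-- fourth case: `Y P1 = r P μ`, `3 (θ + 3) = P s` -/
theorem c1p {P s M θ μ Y r q : ℤ} (hP : 18 < P) (hs : 0 < s) (hY : 0 < Y)
    (hM : 0 ≤ M) (hθ : 3 * (θ + 3) = P * s) (hμ : 3 * μ = P * M + 18)
    (hI : Y * P1 θ μ = r * P * μ) (hq : Y * q = P * P2 θ μ)
    (hc : P ^ 3 ∣ q ∨ q < P ^ 3) :
    P * (Y * s ^ 2 - (3 * r - Y * s) * M) = 6 * Y * M + 54 * r + 3 * Y * s ∧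
    (P ∣ 9 * Y * s + 54 * r ∨ 5 * s * (M + s) ≤ 54 * Y) := by
  unfold P2 at hq
  unfold P1 at hI
  have hP0 : 0 < P := by omega
  have h9 : Y * ((P * s - 6) * (P * M + 18) + (P * s - 9) * (P * s - 12)) =
      3 * r * P * (P * M + 18) := by
    rw [← hθ, ← hμ]; linear_combination 9 * hI
  have key : P * (Y * s ^ 2 - (3 * r - Y * s) * M) = 6 * Y * M + 54 * r + 3 * Y * s := by
    have h : P * (P * (Y * s ^ 2 - (3 * r - Y * s) * M) - (6 * Y * M + 54 * r + 3 * Y * s)) = 0 := by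
      linear_combination h9
    rcases mul_eq_zero.1 h with h | h
    · omega
    · linarith
  have hX : 9 * (Y * q) = P ^ 2 * (P * s * (M + s) - 3 * (M - s)) := by
    have h1 : 9 * (P * ((θ + 2) * μ + θ * (θ + 1))) =
        P * ((3 * (θ + 3) - 3) * (3 * μ) + (3 * (θ + 3) - 9) * (3 * (θ + 3) - 6)) := by ring
    rw [hq, h1, hθ, hμ]; ring
  refine ⟨key, ?_⟩
  rcases hc with hc | hc
  · left
    obtain ⟨w, hw⟩ := hc
    have h2 : P ∣ 3 * (M - s) := by
      have h3 : P ^ 2 * (P * (9 * Y * w)) = P ^ 2 * (P * s * (M + s) - 3 * (M - s)) := by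
        rw [← hX, hw]; ring
      have h4 := mul_left_cancel₀ (pow_ne_zero 2 hP0.ne') h3
      exact ⟨s * (M + s) - 9 * Y * w, by linear_combination h4⟩
    have h5 : P ∣ 9 * Y * s + 54 * r := by
      obtain ⟨v, hv⟩ := h2
      exact ⟨(Y * s ^ 2 - (3 * r - Y * s) * M) - 2 * Y * v, by
        linear_combination -key - 2 * Y * hv⟩
    exact h5
  · right
    have h2 : P ^ 2 * (P * s * (M + s) - 3 * (M - s)) < P ^ 2 * (9 * Y * P) := by
      rw [← hX]
      have : Y * q < Y * P ^ 3 := (mul_lt_mul_iff_right₀ hY).2 hc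
      linarith [this, show P ^ 2 * (9 * Y * P) = 9 * (Y * P ^ 3) by ring]
    have h3 := (mul_lt_mul_iff_right₀ (pow_pos hP0 2)).1 h2
    have h4 : 6 * (3 * (M - s)) ≤ P * (M + s) := by nlinarith
    have h5 : P * (6 * s * (M + s)) < P * (54 * Y + (M + s)) := by nlinarith
    have h6 := (mul_lt_mul_iff_right₀ hP0).1 h5
    nlinarith

end Pool.Agent.TFQ
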